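import Mathlib

set_option autoImplicit false
set_option linter.unusedSectionVars false
set_option linter.unusedSimpArgs false

namespace Pool.Agent.H.MP_a51306_an

section Alg
variable {R : Type} [Ring R] [StarRing R] [Algebra ℝ R] [StarModule ℝ R]

/-- sums of hermitian squares -/
def Sos (R : Type) [Ring R] [StarRing R] : AddSubmonoid R :=
  AddSubmonoid.closure (Set.range fun s : R => star s * s)

lemma sos_sq (s : R) : star s * s ∈ Sos R := AddSubmonoid.subset_closure ⟨s, rfl⟩

lemma sos_smul (r : ℝ) (hr : 0 ≤ r) (s : R) : r • (star s * s) ∈ Sos R := by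
  have := sos_sq (√r • s)
  rwa [star_smul, star_trivial, smul_mul_smul_comm, Real.mul_self_sqrt hr] at this

lemma tl (u v f : R) (c : ℝ) (h0 : 0 < c) (h1 : c < 1) (su : star u = u) (sv : star v = v)
    (sf : star f = f) (uu : u * u = u) (vv : v * v = v) (ff : f * f = f) (fu : f * u = u)
    (uf : u * f = u) (fv : f * v = v) (vf : v * f = v) (uvu : u * (v * u) = c ^ 2 • u)
    (vuv : v * (u * v) = c ^ 2 • v) :
    (2 + 2 * c) • f - (2 + c) • (u + v) + u * v + v * u ∈ Sos R := by
  have uu' : ∀ x, u * (u * x) = u * x := fun x => by rw [← mul_assoc, uu]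
  have vv' : ∀ x, v * (v * x) = v * x := fun x => by rw [← mul_assoc, vv]
  have fu' : ∀ x, f * (u * x) = u * x := fun x => by rw [← mul_assoc, fu]
  have fv' : ∀ x, f * (v * x) = v * x := fun x => by rw [← mul_assoc, fv]
  have uvu' : ∀ x, u * (v * (u * x)) = c ^ 2 • (u * x) := fun x => by
    rw [← smul_mul_assoc, ← uvu]; simp only [mul_assoc]
  have vuv' : ∀ x, v * (u * (v * x)) = c ^ 2 • (v * x) := fun x => by
    rw [← smul_mul_assoc, ← vuv]; simp only [mul_assoc]
  have k1 : 0 < 1 - c := by linarith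
  have k2 : 0 < 1 - c ^ 2 := by nlinarith
  have a1 := sos_smul ((2 + 2 * c) / (1 - c ^ 2) ^ 2) (by positivity)
    ((1 - c ^ 2) • f - u - v + u * v + v * u)
  have a2 := sos_smul (1 / (c * (1 - c) ^ 2)) (by positivity)
    (c ^ 2 • u + c • v - v * u - c • (u * v))
  convert add_mem a1 a2 using 1
  simp only [star_add, star_sub, star_smul, star_mul, su, sv, sf, star_trivial, mul_add, add_mul,
    mul_sub, sub_mul, smul_mul_assoc, mul_smul_comm, mul_assoc, uu, vv, ff, fu, uf, fv, vf, uvu,
    vuv, uu', vv', fu', fv', uvu', vuv']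
  have k3 : (1 - c ^ 2) = (1 - c) * (1 + c) := by ring
  have k4 : 1 + c ≠ 0 := by linarith
  match_scalars <;> (rw [k3]; field_simp; try ring)

lemma two_proj (u v e : R) (c : ℝ) (h0 : 0 < c) (h1 : c < 1) (su : star u = u) (sv : star v = v)
    (se : star e = e) (uu : u * u = u) (vv : v * v = v) (ee : e * e = e) (eu : e * u = u * e)
    (ev : e * v = v * e) (uve : u * v * e = v * u * e)
    (uvu : u * v * u * (1 - e) = c ^ 2 • (u * (1 - e)))
    (vuv : v * u * v * (1 - e) = c ^ 2 • (v * (1 - e))) :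
    (1 - u) * (1 - v) + (1 - v) * (1 - u) + c • ((1 - u) + (1 - v)) ∈ Sos R := by
  obtain ⟨f, rfl⟩ : ∃ f, e = 1 - f := ⟨1 - e, by simp⟩
  rw [sub_sub_cancel] at uvu vuv
  have sf : star f = f := by simpa using se
  have ff : f * f = f := by
    have : f * f - f = (1 - f) * (1 - f) - (1 - f) := by noncomm_ring
    rw [ee, sub_self] at this; exact sub_eq_zero.1 this
  have fu : f * u = u * f := by simpa [sub_mul, mul_sub] using eu
  have fv : f * v = v * f := by simpa [sub_mul, mul_sub] using ev
  have uu' : ∀ x, u * (u * x) = u * x := fun x => by rw [← mul_assoc, uu]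
  have vv' : ∀ x, v * (v * x) = v * x := fun x => by rw [← mul_assoc, vv]
  have ff' : ∀ x, f * (f * x) = f * x := fun x => by rw [← mul_assoc, ff]
  have fu' : ∀ x, f * (u * x) = u * (f * x) := fun x => by rw [← mul_assoc, fu, mul_assoc]
  have fv' : ∀ x, f * (v * x) = v * (f * x) := fun x => by rw [← mul_assoc, fv, mul_assoc]
  have a1 := tl (u * f) (v * f) f c h0 h1 (by rw [star_mul, sf, su, fu])
    (by rw [star_mul, sf, sv, fv]) sf (by simp only [mul_assoc, fu', uu', ff])
    (by simp only [mul_assoc, fv', vv', ff]) ff (by simp only [fu', ff])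
    (by simp only [mul_assoc, ff]) (by simp only [fv', ff]) (by simp only [mul_assoc, ff])
    (by rw [← uvu]; simp only [mul_assoc, fu', fv', ff])
    (by rw [← vuv]; simp only [mul_assoc, fu', fv', ff])
  have a2 := sos_smul 2 (by norm_num) ((1 - u) * (1 - v) * (1 - f))
  have a3 := sos_smul c h0.le ((1 - u) * (1 - f))
  have a4 := sos_smul c h0.le ((1 - v) * (1 - f))
  have q1 : v * u = u * v - u * (v * f) + v * (u * f) := by
    have : v * u - (u * v - u * (v * f) + v * (u * f)) = v * u * (1 - f) - u * v * (1 - f) := by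
      noncomm_ring
    rw [uve, sub_self] at this; exact sub_eq_zero.1 this
  have q2 : v * (u * v) = u * v - u * (v * f) + v * (u * (v * f)) := by
    rw [← mul_assoc, q1]
    simp only [add_mul, sub_mul, mul_assoc, vv, fv, vv']
  convert add_mem (add_mem (add_mem a1 a2) a3) a4 using 1
  simp only [star_sub, star_mul, su, sv, sf, star_one, mul_add, add_mul,
    mul_sub, sub_mul, mul_assoc, uu, vv, ff, fu, fv, uu', vv', ff', fu', fv', mul_one, one_mul, q2]
  rw [q1]
  module

variable {F : Type} [Field F] [Fintype F]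

noncomputable def avg (X : F → R) : R := (Fintype.card F : ℝ)⁻¹ • ∑ a, X a

omit [StarRing R] [StarModule ℝ R] in
lemma avg_const (x : R) : avg (fun _ : F => x) = x := by
  have hN : (Fintype.card F : ℝ) ≠ 0 := by exact_mod_cast Fintype.card_ne_zero
  rw [avg, Finset.sum_const, Finset.card_univ, ← Nat.cast_smul_eq_nsmul ℝ, smul_smul,
    inv_mul_cancel₀ hN, one_smul]

omit [StarRing R] [StarModule ℝ R] [Field F] in
lemma mul_avg (x : R) (X : F → R) : x * avg X = avg fun a => x * X a := by
  simp only [avg, mul_smul_comm, Finset.mul_sum]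

omit [StarRing R] [StarModule ℝ R] [Field F] in
lemma avg_mul (x : R) (X : F → R) : avg X * x = avg fun a => X a * x := by
  simp only [avg, smul_mul_assoc, Finset.sum_mul]

omit [StarRing R] [StarModule ℝ R] [Field F] in
lemma avg_equiv (X : F → R) (e : F ≃ F) : avg (fun a => X (e a)) = avg X := by
  simp only [avg, e.sum_comp]

/-- one-parameter unitary groups -/
structure One (X : F → R) : Prop where
  add : ∀ a b, X a * X b = X (a + b)
  zero : X 0 = 1
  st : ∀ a, star (X a) = X (-a)

lemma One.l {X : F → R} (h : One X) (a : F) : X a * avg X = avg X := by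
  rw [mul_avg]; simp only [h.add]; exact avg_equiv X (Equiv.addLeft a)

lemma One.r {X : F → R} (h : One X) (a : F) : avg X * X a = avg X := by
  rw [avg_mul]; simp only [h.add]; exact avg_equiv X (Equiv.addRight a)

lemma One.idem {X : F → R} (h : One X) : avg X * avg X = avg X := by
  rw [avg_mul]; simp only [h.l]; exact avg_const _

lemma One.sa {X : F → R} (h : One X) : star (avg X) = avg X := by
  rw [← avg_equiv X (Equiv.neg F)]
  simp only [avg, star_smul, star_trivial, star_sum, h.st, Equiv.neg_apply, neg_neg]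
  congr 1
  exact (Equiv.sum_comp (Equiv.neg F) X).symm

lemma heis1 {X Y W : F → R} (hX : One X) (hY : One Y)
    (cX : ∀ s a, W s * X a = X a * W s)
    (h : ∀ a b, X a * Y b = Y b * X a * W (a * b)) :
    avg X * avg Y * avg X * (1 - avg W) = (Fintype.card F : ℝ)⁻¹ • (avg X * (1 - avg W)) := by
  classical
  have c1 : ∀ s, W s * avg X = avg X * W s := fun s => by simp only [mul_avg, avg_mul, cX]
  have k : ∀ b, b ≠ 0 → avg X * Y b * avg X * (1 - avg W) = 0 := fun b hb => by
    have k1 : ∀ a, avg X * Y b * avg X = avg X * Y b * avg X * W (a * b) := fun a => by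
      have : avg X * Y b = avg X * (Y b * X a * W (a * b)) := by rw [← h, ← mul_assoc, hX.r]
      conv_lhs => rw [this]
      simp only [mul_assoc, c1]
      rw [← mul_assoc (X a), hX.l]
    have k2 : avg X * Y b * avg X * avg W = avg X * Y b * avg X := by
      rw [← avg_equiv W (Equiv.mulRight₀ b hb), mul_avg]
      simp only [Equiv.mulRight₀_apply, ← k1]
      exact avg_const _
    rw [mul_sub, k2, mul_one, sub_self]
  rw [mul_avg (avg X) Y, avg_mul (avg X), avg_mul (1 - avg W), avg, Finset.sum_eq_single 0 (fun b _ hb => k b hb) (by simp),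
    hY.zero, mul_one, hX.idem]

lemma heis {X Y W : F → R} (hX : One X) (hY : One Y) (hW : One W)
    (cX : ∀ s a, W s * X a = X a * W s) (cY : ∀ s a, W s * Y a = Y a * W s)
    (h : ∀ a b, X a * Y b = Y b * X a * W (a * b)) (c : ℝ) (h0 : 0 < c) (h1 : c < 1)
    (hc : c ^ 2 = (Fintype.card F : ℝ)⁻¹) :
    (1 - avg X) * (1 - avg Y) + (1 - avg Y) * (1 - avg X) + c • ((1 - avg X) + (1 - avg Y))
      ∈ Sos R := by
  refine two_proj _ _ (avg W) c h0 h1 hX.sa hY.sa hW.sa hX.idem hY.idem hW.idem ?_ ?_ ?_ ?_ ?_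
  · simp only [mul_avg, avg_mul, cX]
    simp only [← mul_avg, ← avg_mul]
  · simp only [mul_avg, avg_mul, cY]
    simp only [← mul_avg, ← avg_mul]
  · have : ∀ a b, X a * Y b * avg W = Y b * X a * avg W := fun a b => by
      rw [h, mul_assoc, hW.l]
    have e1 : ∀ a, X a * avg Y * avg W = avg Y * X a * avg W := fun a => by
      rw [mul_avg (X a), avg_mul, avg_mul (X a), avg_mul]; simp only [this]
    rw [avg_mul (avg Y), avg_mul, mul_avg (avg Y), avg_mul]; simp only [e1]
  · rw [hc]; exact heis1 hX hY cX h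
  · have := heis1 (W := fun s => W (-s)) hY hX (fun s a => cY _ a) fun a b => by
      rw [h, mul_assoc _ (W _), hW.add, mul_comm b a, add_neg_cancel, hW.zero, mul_one]
    rw [hc, ← avg_equiv W (Equiv.neg F)]
    exact this

/-- the three properties of the asymptotic algebra that are used -/
structure Good (R : Type) [Ring R] [StarRing R] [Algebra ℝ R] : Prop where
  gi : ∀ (a : R) (ε : ℝ), 0 < ε → a ∈ Sos R → a * a - ε • a ∈ Sos R →
    ∃ b, star b = b ∧ a * b = b * a ∧ a * (a * b) = a
  pos : ∀ x s : R, s ∈ Sos R → star x * x + s = 0 → x = 0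
  fin : ∀ x : R, star x * x = 1 → x * star x = 1

lemma sos_sa {a : R} (h : a ∈ Sos R) : star a = a := by
  induction h using AddSubmonoid.closure_induction with
  | mem x hx => obtain ⟨s, rfl⟩ := hx; simp
  | zero => simp
  | add x y _ _ hx hy => rw [star_add, hx, hy]

lemma sos_conj {a : R} (h : a ∈ Sos R) (p : R) : star p * a * p ∈ Sos R := by
  induction h using AddSubmonoid.closure_induction with
  | mem x hx =>
    obtain ⟨s, rfl⟩ := hx
    have := sos_sq (s * p)
    simpa only [star_mul, mul_assoc] using this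
  | zero => simp
  | add x y _ _ hx hy => rw [mul_add, add_mul]; exact add_mem hx hy

/-- commutator word -/
def Wd {K : Type} [Group K] (X : Fin 4 → F → K) (i j : Fin 4) (s : F) : K :=
  (X j 1 * X i s)⁻¹ * (X i s * X j 1)

structure Hz {K : Type} [Group K] (X : Fin 4 → F → K) : Prop where
  add : ∀ i a b, X i a * X i b = X i (a + b)
  heis : ∀ i j a b, X i a * X j b = X j b * X i a * Wd X i j (a * b)
  wadd : ∀ i j a b, Wd X i j a * Wd X i j b = Wd X i j (a + b)
  c1 : ∀ i j s a, Wd X i j s * X i a = X i a * Wd X i j s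
  c2 : ∀ i j s a, Wd X i j s * X j a = X j a * Wd X i j s

lemma one_of {K : Type} [Group K] (π : K →* R) (hπ : ∀ g, star (π g) = π g⁻¹) (X : F → K)
    (h : ∀ a b, X a * X b = X (a + b)) : One fun a => π (X a) := by
  have h0 : X 0 = 1 := by simpa using h 0 0
  refine ⟨fun a b => by rw [← map_mul, h], by rw [h0, map_one], fun a => ?_⟩
  rw [hπ, eq_comm]
  congr 1
  exact eq_inv_of_mul_eq_one_left (by rw [h, neg_add_cancel, h0])

theorem main (hR : Good R) (hF : 9 < Fintype.card F) {K : Type} [Group K] (π : K →* R)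
    (hπ : ∀ g, star (π g) = π g⁻¹) (X : Fin 4 → F → K) (hX : Hz X) (t : K)
    (ht : ∀ i a, t * X i a * t⁻¹ ∈ Subgroup.closure {g | ∃ i a, X i a = g}) (J : Ideal R)
    (hJ : ∀ i a, π (t * X i a * t⁻¹) - 1 ∈ J) (i : Fin 4) (a : F) : π (X i a) - 1 ∈ J := by
  have o := fun i => one_of π hπ (X i) (hX.add i)
  set c : ℝ := (√(Fintype.card F))⁻¹ with hc
  have hq : (3 : ℝ) < √(Fintype.card F) := Real.lt_sqrt_of_sq_lt (by exact_mod_cast hF)
  have h0 : 0 < c := by positivity
  have h3 : c < 1 / 3 := by rw [hc, one_div]; exact inv_strictAnti₀ (by norm_num) hq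
  let Q : Fin 4 → R := fun i => 1 - avg fun a => π (X i a)
  have S : ∀ i j, Q i * Q j + Q j * Q i + c • (Q i + Q j) ∈ Sos R := fun i j =>
    heis (o i) (o j) (one_of π hπ _ (hX.wadd i j))
      (fun s a => by rw [← map_mul, ← map_mul, hX.c1])
      (fun s a => by rw [← map_mul, ← map_mul, hX.c2])
      (fun a b => by rw [← map_mul, ← map_mul, ← map_mul, hX.heis]) c h0 (by linarith)
      (by rw [hc, inv_pow, Real.sq_sqrt (by positivity)])
  have QQ : ∀ i, Q i * Q i = Q i := fun i => by
    simp only [Q, mul_sub, sub_mul, (o i).idem, mul_one, one_mul]; abel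
  have Qs : ∀ i, star (Q i) = Q i := fun i => by simp only [Q, star_sub, star_one, (o i).sa]
  have QS : ∀ i, Q i ∈ Sos R := fun i => by have := sos_sq (Q i); rwa [Qs, QQ] at this
  set A := ∑ i, Q i with hA
  have AS : A ∈ Sos R := sum_mem fun i _ => QS i
  obtain ⟨b, sb, ab, aab⟩ := hR.gi A (1 - 3 * c) (by linarith) AS (by
    convert add_mem (add_mem (add_mem (add_mem (add_mem (S 0 1) (S 0 2)) (S 0 3)) (S 1 2))
      (S 1 3)) (S 2 3) using 1
    simp only [hA, Fin.sum_univ_four, mul_add, add_mul, QQ]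
    module)
  obtain ⟨p, hp⟩ : ∃ p, p = 1 - A * b := ⟨_, rfl⟩
  have Ap : A * p = 0 := by rw [hp, mul_sub, aab, mul_one, sub_self]
  have sp : star p = p := by rw [hp, star_sub, star_one, star_mul, sb, sos_sa AS, ab]
  have pp : p * p = p := by
    conv_lhs => lhs; rw [hp, ab]
    rw [sub_mul, mul_assoc, Ap, mul_zero, sub_zero, one_mul]
  have Qp : ∀ i, Q i * p = 0 := fun i => by
    refine hR.pos _ _ (sos_conj (sum_mem (t := Finset.univ.erase i) fun j _ => QS j) p) ?_
    rw [star_mul, Qs, mul_assoc, ← mul_assoc (Q i), QQ, mul_assoc, ← mul_add, ← add_mul,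
      Finset.add_sum_erase _ _ (Finset.mem_univ i), Ap, mul_zero]
  have Xp : ∀ i a, π (X i a) * p = p := fun i a => by
    have e : (avg fun a => π (X i a)) * p = p := by
      have := Qp i
      simp only [Q, sub_mul, one_mul] at this
      exact (sub_eq_zero.1 this).symm
    rw [← e, ← mul_assoc, (o i).l]
  have Gp : ∀ g ∈ Subgroup.closure {g | ∃ i a, X i a = g}, π g * p = p := fun g hg => by
    induction hg using Subgroup.closure_induction with
    | mem x hx => obtain ⟨i, a, rfl⟩ := hx; exact Xp i a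
    | one => simp
    | mul x y _ _ hx hy => rw [map_mul, mul_assoc, hy, hx]
    | inv x _ hx =>
      conv_lhs => rw [← hx]
      rw [← mul_assoc, ← map_mul, inv_mul_cancel, map_one, one_mul]
  have t1 : π t * π t⁻¹ = 1 := by rw [← map_mul, mul_inv_cancel, map_one]
  have t2 : π t⁻¹ * π t = 1 := by rw [← map_mul, inv_mul_cancel, map_one]
  have t2' : ∀ x, π t⁻¹ * (π t * x) = x := fun x => by rw [← mul_assoc, t2, one_mul]
  have hA' : π t * A * π t⁻¹ = ∑ i, (1 - avg fun a => π (t * X i a * t⁻¹)) := by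
    simp only [hA, Finset.mul_sum, Finset.sum_mul, Q, mul_sub, sub_mul, mul_one, t1, mul_avg,
      avg_mul, map_mul]
  obtain ⟨p', hp'⟩ : ∃ p', p' = π t * p * π t⁻¹ := ⟨_, rfl⟩
  have e1 : 1 - p' = π t * b * π t⁻¹ * (π t * A * π t⁻¹) := by
    simp only [hp', hp, ab, mul_sub, sub_mul, mul_one, t1, mul_assoc, t2', sub_sub_cancel]
  have e2 : (1 - p') * p = 0 := by
    rw [e1, mul_assoc, hA', Finset.sum_mul, Finset.sum_eq_zero, mul_zero]
    intro i _
    rw [sub_mul, avg_mul]
    simp only [Gp _ (ht i _)]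
    rw [avg_const, one_mul, sub_self]
  have sp' : star p' = p' := by
    simp only [hp', star_mul, hπ, sp, inv_inv, mul_assoc]
  have e3 : p * (1 - p') = 0 := by
    have := congrArg star e2
    rwa [star_mul, star_sub, star_one, sp, sp', star_zero] at this
  have pp' : p' * p' = p' := by
    simp only [hp', mul_assoc, t2']; rw [← mul_assoc p, pp]
  have e4 : p * π t⁻¹ * (1 - p') = 0 := by
    simp only [hp', mul_sub, mul_one, mul_assoc, t2']; rw [← mul_assoc p p, pp, sub_self]
  have e5 : (1 - p') * (π t * p) = 0 := by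
    have := congrArg star e4
    rwa [star_mul, star_mul, star_sub, star_one, sp, sp', star_zero, hπ, inv_inv] at this
  have e6 : (1 - p') * (1 - p') = 1 - p' := by
    simp only [mul_sub, sub_mul, pp', mul_one, one_mul]; abel
  have sw : star (p * π t⁻¹ + (1 - p')) = π t * p + (1 - p') := by
    rw [star_add, star_mul, star_sub, star_one, sp, sp', hπ, inv_inv]
  have e7 := hR.fin (p * π t⁻¹ + (1 - p')) (by
    rw [sw, add_mul, mul_add, mul_add, e6, mul_assoc (π t) p (1 - p'), e3,
      ← mul_assoc (1 - p'), e2, mul_assoc (π t), ← mul_assoc p p, pp, ← mul_assoc, ← hp']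
    simp)
  rw [sw, add_mul, mul_add, mul_add, e6, e4, e5, mul_assoc, t2', pp] at e7
  have e8 : p = p' := by
    have : p - p' = p + 0 + (0 + (1 - p')) - 1 := by abel
    rw [e7, sub_self] at this; exact sub_eq_zero.1 this
  have e9 : π (X i a) - 1 = (π (X i a) - 1) * (1 - p') := by
    rw [← e8, mul_sub, mul_one, sub_mul, Xp, one_mul, sub_self, sub_zero]
  rw [e9, e1, ← mul_assoc, hA']
  refine J.mul_mem_left _ (sum_mem fun j _ => ?_)
  rw [← neg_sub, ← avg_const (F := F) (1 : R), avg, avg, ← smul_sub, ← Finset.sum_sub_distrib,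
    Algebra.smul_def]
  exact neg_mem (J.mul_mem_left _ (sum_mem fun a _ => hJ j a))

end Alg

end Pool.Agent.H.MP_a51306_an
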