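import Pool.Agent.H.MP_a51306_an.A

set_option autoImplicit false
set_option linter.unusedSectionVars false
set_option linter.unusedSimpArgs false

namespace Pool.Agent.H.MP_a51306_an

open Filter Topology

section One
variable {A : Type} [CStarAlgebra A]

lemma sos_nonneg [PartialOrder A] [StarOrderedRing A] {a : A} (h : a ∈ Sos A) : 0 ≤ a :=
  StarOrderedRing.nonneg_iff.2 h

lemma pos1 (x s : A) (hs : s ∈ Sos A) : ‖x‖ * ‖x‖ ≤ ‖star x * x + s‖ := by
  let _ := CStarAlgebra.spectralOrder A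
  have := CStarAlgebra.spectralOrderedRing A
  rw [← CStarRing.norm_star_mul_self]
  exact CStarAlgebra.norm_le_norm_of_nonneg_of_le (star_mul_self_nonneg x)
    (le_add_of_nonneg_right (sos_nonneg hs))

lemma gi1 (a s : A) (ha : a ∈ Sos A) (hs : s ∈ Sos A) (ε : ℝ) (hε : 0 < ε) :
    ∃ b, star b = b ∧ a * b = b * a ∧ ‖b‖ ≤ 2 / ε ∧
      ‖a * (a * b) - a‖ ≤ 2 / ε * ‖a * a - ε • a - s‖ := by
  let _ := CStarAlgebra.spectralOrder A
  have := CStarAlgebra.spectralOrderedRing A
  have sa : IsSelfAdjoint a := sos_sa ha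
  set δ := ‖a * a - ε • a - s‖ with hδ
  have h0 : 0 ≤ δ := norm_nonneg _
  have hg : Continuous fun t : ℝ => (max t (ε / 2))⁻¹ :=
    (continuous_id.max continuous_const).inv₀ fun t =>
      (lt_max_of_lt_right (by linarith)).ne'
  have h1 : ∀ t ∈ spectrum ℝ a, 0 ≤ t := (StarOrderedRing.nonneg_iff_spectrum_nonneg a).1
    (sos_nonneg ha)
  have h2 : ∀ t ∈ spectrum ℝ a, 0 ≤ t * t - ε * t + δ := by
    rw [← cfc_nonneg_iff (fun t : ℝ => t * t - ε * t + δ) a, cfc_add .., cfc_sub ..,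
      cfc_mul .., cfc_const_mul .., cfc_id' ℝ a, cfc_const ..]
    have e : IsSelfAdjoint (a * a - ε • a - s) := by
      rw [IsSelfAdjoint, star_sub, star_sub, star_mul, star_smul, sa.star_eq, sos_sa hs,
        star_trivial]
    have h3 := e.neg_algebraMap_norm_le_self
    have h4 := add_nonneg (sos_nonneg hs) (sub_nonneg.2 h3)
    convert h4 using 1
    abel
  refine ⟨cfc (fun t : ℝ => (max t (ε / 2))⁻¹) a, (cfc_predicate _ a : IsSelfAdjoint _), ?_, ?_, ?_⟩
  · conv_lhs => lhs; rw [← cfc_id' ℝ a]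
    conv_rhs => rhs; rw [← cfc_id' ℝ a]
    exact cfc_commute_cfc _ _ a
  · refine norm_cfc_le (by positivity) fun t _ => ?_
    rw [Real.norm_eq_abs, abs_of_pos (inv_pos.2 (lt_max_of_lt_right (by linarith))),
      ← inv_div ε 2]
    exact inv_anti₀ (half_pos hε) (le_max_right _ _)
  · have : a * (a * cfc (fun t : ℝ => (max t (ε / 2))⁻¹) a) - a =
        cfc (fun t : ℝ => t * (t * (max t (ε / 2))⁻¹) - t) a := by
      rw [cfc_sub (fun t : ℝ => t * (t * (max t (ε / 2))⁻¹)) (fun t => t) a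
          (continuous_id.mul (continuous_id.mul hg)).continuousOn continuousOn_id,
        cfc_mul (fun t : ℝ => t) (fun t => t * (max t (ε / 2))⁻¹) a continuousOn_id
          (continuous_id.mul hg).continuousOn,
        cfc_mul (fun t : ℝ => t) _ a continuousOn_id hg.continuousOn, cfc_id' ℝ a]
    rw [this]
    refine norm_cfc_le (by positivity) fun t ht => ?_
    have h3 := h1 t ht
    have h4 := h2 t ht
    rcases le_total t (ε / 2) with h | h
    · rw [max_eq_right h, Real.norm_eq_abs, abs_sub_comm, abs_of_nonneg, div_mul_eq_mul_div,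
        le_div_iff₀ hε]
      · have : 0 ≤ t * (t * (ε / 2)⁻¹) := by positivity
        nlinarith
      · have : t * (ε / 2)⁻¹ ≤ 1 := by rw [← div_eq_mul_inv, div_le_one (by linarith)]; exact h
        nlinarith
    · rw [max_eq_left h, mul_inv_cancel₀ (by linarith), mul_one, sub_self, norm_zero]
      positivity

lemma fin1 (hA : ∀ x y : A, x * y = 1 → y * x = 1) (x : A) (h : ‖star x * x - 1‖ < 1) :
    ‖x * star x - 1‖ ≤ ‖star x * x - 1‖ := by
  have hu : IsUnit (star x * x) := by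
    have : ‖1 - star x * x‖ < 1 := by rwa [norm_sub_rev]
    simpa using (Units.oneSub _ this).isUnit
  obtain ⟨w, hw⟩ := hu.exists_left_inv
  have hx : IsUnit x := ⟨⟨x, w * star x, hA _ _ (by rwa [mul_assoc]), by rwa [mul_assoc]⟩, rfl⟩
  have s1 : IsSelfAdjoint (x * star x) := IsSelfAdjoint.mul_star_self x
  have s2 : IsSelfAdjoint (star x * x) := IsSelfAdjoint.star_mul_self x
  have e : ∀ b : A, IsSelfAdjoint b → cfc (fun t : ℝ => t - 1) b = b - 1 := fun b hb => by
    rw [cfc_sub (fun t : ℝ => t) (fun _ => 1) b, cfc_id' ℝ b, cfc_const_one ℝ b]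
  rw [← e _ s1, ← e _ s2]
  refine norm_cfc_le (norm_nonneg _) fun t ht => ?_
  refine norm_apply_le_norm_cfc (fun t : ℝ => t - 1) _ ?_
  have h0 : t ≠ 0 := fun h0 => (spectrum.zero_notMem_iff ℝ).2 (hx.mul hx.star) (h0 ▸ ht)
  have : t ∈ spectrum ℝ (x * star x) \ {0} := ⟨ht, h0⟩
  rw [spectrum.nonzero_mul_comm] at this
  exact this.1

lemma norm_one_le : ‖(1 : A)‖ ≤ 1 := by
  rcases subsingleton_or_nontrivial A with h | h
  · rw [Subsingleton.elim (1 : A) 0, norm_zero]; exact zero_le_one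
  · exact norm_one.le

end One

variable (B : ℕ → Type) [∀ n, CStarAlgebra (B n)] (l : Filter ℕ)

/-- bounded sequences -/
def Bdd : StarSubalgebra ℝ (∀ n, B n) where
  carrier := {a | ∃ C, ∀ n, ‖a n‖ ≤ C}
  mul_mem' := by
    rintro a b ⟨C, hC⟩ ⟨D, hD⟩
    exact ⟨C * D, fun n => (norm_mul_le _ _).trans
      (mul_le_mul (hC n) (hD n) (norm_nonneg _) ((norm_nonneg _).trans (hC n)))⟩
  add_mem' := by
    rintro a b ⟨C, hC⟩ ⟨D, hD⟩
    exact ⟨C + D, fun n => (norm_add_le _ _).trans (add_le_add (hC n) (hD n))⟩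
  algebraMap_mem' r := ⟨‖r‖, fun n => by
    rw [Pi.algebraMap_apply, Algebra.algebraMap_eq_smul_one, norm_smul]
    exact mul_le_of_le_one_right (norm_nonneg _) norm_one_le⟩
  star_mem' := by
    rintro a ⟨C, hC⟩
    exact ⟨C, fun n => by rw [Pi.star_apply, norm_star]; exact hC n⟩

variable {B l} in
lemma null_mul {a b : ∀ n, B n} (ha : a ∈ Bdd B) (hb : Tendsto (fun n => ‖b n‖) l (𝓝 0)) :
    Tendsto (fun n => ‖a n * b n‖) l (𝓝 0) ∧ Tendsto (fun n => ‖b n * a n‖) l (𝓝 0) := by
  obtain ⟨C, hC⟩ := ha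
  have := hb.const_mul C
  rw [mul_zero] at this
  exact ⟨squeeze_zero (fun _ => norm_nonneg _) (fun n => (norm_mul_le _ _).trans
      (mul_le_mul_of_nonneg_right (hC n) (norm_nonneg _))) this,
    squeeze_zero (fun _ => norm_nonneg _) (fun n => (norm_mul_le _ _).trans
      ((mul_comm _ _).trans_le (mul_le_mul_of_nonneg_right (hC n) (norm_nonneg _)))) this⟩

variable {B l} in
lemma null_add {a b : ∀ n, B n} (ha : Tendsto (fun n => ‖a n‖) l (𝓝 0))
    (hb : Tendsto (fun n => ‖b n‖) l (𝓝 0)) : Tendsto (fun n => ‖a n + b n‖) l (𝓝 0) :=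
  squeeze_zero (fun _ => norm_nonneg _) (fun _ => norm_add_le _ _) (by simpa using ha.add hb)

def con : RingCon (Bdd B) where
  r a b := Tendsto (fun n => ‖a.1 n - b.1 n‖) l (𝓝 0)
  iseqv := ⟨fun a => by simpa using tendsto_const_nhds, fun h => by simpa only [norm_sub_rev] using h,
    fun h1 h2 => by simpa using null_add h1 h2⟩
  mul' {a b c d} h1 h2 := by
    refine (null_add (null_mul c.2 h1).2 (null_mul b.2 h2).1).congr fun n => ?_
    congr 1
    simp only [MulMemClass.coe_mul, Pi.mul_apply]; noncomm_ring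
  add' {a b c d} h1 h2 := by
    refine (null_add h1 h2).congr fun n => ?_
    congr 1
    simp only [AddMemClass.coe_add, Pi.add_apply]; abel

/-- the asymptotic sequence algebra -/
def Q : Type := (con B l).Quotient

noncomputable instance : Ring (Q B l) := inferInstanceAs (Ring (con B l).Quotient)
noncomputable instance : Algebra ℝ (Q B l) := inferInstanceAs (Algebra ℝ (con B l).Quotient)

noncomputable def mk : Bdd B →ₐ[ℝ] Q B l := (con B l).mkₐ ℝ

variable {B l}

lemma mk_surj (x : Q B l) : ∃ a, mk B l a = x := (con B l).mkₐ_surjective x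

lemma mk_eq {a b : Bdd B} : mk B l a = mk B l b ↔ Tendsto (fun n => ‖a.1 n - b.1 n‖) l (𝓝 0) :=
  (con B l).eq

lemma mk_eq_zero {a : Bdd B} : mk B l a = 0 ↔ Tendsto (fun n => ‖a.1 n‖) l (𝓝 0) := by
  rw [← map_zero (mk B l), mk_eq]; simp

noncomputable instance : Star (Q B l) :=
  ⟨Quotient.map' star fun a b h => by
    refine Tendsto.congr (fun n => ?_) (show Tendsto (fun n => ‖a.1 n - b.1 n‖) l (𝓝 0) from h)
    rw [← norm_star, star_sub]; rfl⟩

lemma mk_star (a : Bdd B) : mk B l (star a) = star (mk B l a) := rfl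

noncomputable instance : StarRing (Q B l) where
  star_involutive x := by obtain ⟨a, rfl⟩ := mk_surj x; rw [← mk_star, ← mk_star, star_star]
  star_mul x y := by
    obtain ⟨a, rfl⟩ := mk_surj x; obtain ⟨b, rfl⟩ := mk_surj y
    rw [← map_mul, ← mk_star, ← mk_star, ← mk_star, ← map_mul, star_mul]
  star_add x y := by
    obtain ⟨a, rfl⟩ := mk_surj x; obtain ⟨b, rfl⟩ := mk_surj y
    rw [← map_add, ← mk_star, ← mk_star, ← mk_star, ← map_add, star_add]

instance : StarModule ℝ (Q B l) where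
  star_smul r x := by
    obtain ⟨a, rfl⟩ := mk_surj x
    rw [← map_smul, ← mk_star, ← mk_star, ← map_smul, star_smul]

lemma sos_lift {x : Q B l} (h : x ∈ Sos (Q B l)) :
    ∃ a, mk B l a = x ∧ ∀ n, a.1 n ∈ Sos (B n) := by
  induction h using AddSubmonoid.closure_induction with
  | mem x hx =>
    obtain ⟨s, rfl⟩ := hx
    obtain ⟨a, rfl⟩ := mk_surj s
    exact ⟨star a * a, by rw [map_mul, mk_star], fun n => sos_sq (a.1 n)⟩
  | zero => exact ⟨0, map_zero _, fun n => zero_mem _⟩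
  | add x y _ _ hx hy =>
    obtain ⟨a, rfl, ha⟩ := hx
    obtain ⟨b, rfl, hb⟩ := hy
    exact ⟨a + b, map_add _ _ _, fun n => add_mem (ha n) (hb n)⟩

theorem good (hB : ∀ n (x y : B n), x * y = 1 → y * x = 1) : Good (Q B l) where
  gi x ε hε h1 h2 := by
    obtain ⟨a, rfl, ha⟩ := sos_lift h1
    obtain ⟨s, hs, hs'⟩ := sos_lift h2
    rw [← map_mul, ← map_smul, ← map_sub, eq_comm, mk_eq] at hs
    choose b b1 b2 b3 b4 using fun n => gi1 (a.1 n) (s.1 n) (ha n) (hs' n) ε hε
    refine ⟨mk B l ⟨b, _, b3⟩, ?_, ?_, ?_⟩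
    · rw [← mk_star]; congr 1; exact Subtype.ext (funext b1)
    · rw [← map_mul, ← map_mul]; congr 1; exact Subtype.ext (funext b2)
    · rw [← map_mul, ← map_mul, mk_eq]
      exact squeeze_zero (fun _ => norm_nonneg _) b4 (by simpa using hs.const_mul (2 / ε))
  pos x s h1 h2 := by
    obtain ⟨a, rfl⟩ := mk_surj x
    obtain ⟨s, rfl, hs⟩ := sos_lift h1
    rw [← mk_star, ← map_mul, ← map_add, mk_eq_zero] at h2
    rw [mk_eq_zero]
    have := (squeeze_zero (fun _ => mul_self_nonneg _) (fun n => pos1 (a.1 n) (s.1 n) (hs n))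
      h2).sqrt
    simpa using this
  fin x h := by
    obtain ⟨a, rfl⟩ := mk_surj x
    rw [← mk_star, ← map_mul, ← map_one (mk B l), mk_eq] at h ⊢
    refine squeeze_zero' (Eventually.of_forall fun _ => norm_nonneg _) ?_ h
    filter_upwards [h.eventually_lt_const one_pos] with n hn
    exact fin1 (hB n) (a.1 n) hn

end Pool.Agent.H.MP_a51306_an
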