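import Pool.Agent.H.MP_a51306_an.B
import Pool.Agent.H.MP_e38963_al.A

set_option autoImplicit false
set_option linter.unusedSectionVars false
set_option linter.unusedSimpArgs false

namespace Pool.Agent.H.MP_a51306_an

open Filter Topology Matrix
open scoped Matrix.Norms.L2Operator Kronecker

section HS
variable {ι : Type} [Fintype ι] [DecidableEq ι]

noncomputable def ev (T : Matrix ι ι ℂ) : EuclideanSpace ℂ (ι × ι) := WithLp.toLp 2 (vec T)

lemma ev_add (S T : Matrix ι ι ℂ) : ev (S + T) = ev S + ev T := rfl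
lemma ev_sub (S T : Matrix ι ι ℂ) : ev (S - T) = ev S - ev T := rfl

lemma ev_sq (T : Matrix ι ι ℂ) : ‖ev T‖ ^ 2 = ∑ j, ∑ i, ‖T i j‖ ^ 2 := by
  rw [EuclideanSpace.norm_sq_eq, Fintype.sum_prod_type]; rfl

lemma ev_mul_l (a X : Matrix ι ι ℂ) : ‖ev (a * X)‖ ≤ ‖a‖ * ‖ev X‖ := by
  refine abs_le_of_sq_le_sq' ?_ (by positivity) |>.2
  rw [mul_pow, ev_sq, ev_sq, Finset.mul_sum]
  refine Finset.sum_le_sum fun j _ => ?_
  have h := pow_le_pow_left₀ (norm_nonneg _)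
    (a.l2_opNorm_mulVec (WithLp.toLp 2 fun i => X i j)) 2
  rw [mul_pow, EuclideanSpace.norm_sq_eq, EuclideanSpace.norm_sq_eq] at h
  exact h

lemma ev_star (X : Matrix ι ι ℂ) : ‖ev (star X)‖ = ‖ev X‖ := by
  rw [← sq_eq_sq₀ (norm_nonneg _) (norm_nonneg _), ev_sq, ev_sq, Finset.sum_comm]
  simp [star_eq_conjTranspose]

lemma ev_mul_r (X b : Matrix ι ι ℂ) : ‖ev (X * b)‖ ≤ ‖b‖ * ‖ev X‖ := by
  rw [← ev_star, star_mul, ← ev_star X, ← norm_star b]; exact ev_mul_l _ _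

lemma ev_eq_zero {X : Matrix ι ι ℂ} (h : ‖ev X‖ = 0) : X = 0 := by
  rw [norm_eq_zero] at h
  exact vec_eq_zero_iff.1 (congrArg WithLp.ofLp h)

noncomputable def kr (a b : Matrix ι ι ℂ) : Matrix (ι × ι) (ι × ι) ℂ := (bᴴ)ᵀ ⊗ₖ a

lemma kr_ev (a b X : Matrix ι ι ℂ) :
    toEuclideanCLM (𝕜 := ℂ) (kr a b) (ev X) = ev (a * X * star b) := by
  rw [ev, toEuclideanCLM_toLp, kr, kronecker_mulVec_vec]; rfl

lemma kr_norm (a b : Matrix ι ι ℂ) : ‖kr a b‖ ≤ ‖a‖ * ‖b‖ := by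
  rw [cstar_norm_def]
  refine ContinuousLinearMap.opNorm_le_bound _ (by positivity) fun v => ?_
  obtain ⟨X, hX⟩ := vec_bijective.2 v.ofLp
  have : v = ev X := by rw [ev, hX]
  rw [this, kr_ev]
  refine (ev_mul_r _ _).trans ?_
  rw [norm_star, mul_comm ‖a‖, mul_assoc]
  exact mul_le_mul_of_nonneg_left (ev_mul_l _ _) (norm_nonneg _)

lemma kr_mul (a b : Matrix ι ι ℂ) : kr (a * b) (a * b) = kr a a * kr b b := by
  rw [kr, kr, kr, ← mul_kronecker_mul, conjTranspose_mul, transpose_mul]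

lemma kr_one : kr (1 : Matrix ι ι ℂ) 1 = 1 := by simp [kr]

lemma kr_star (a : Matrix ι ι ℂ) : kr (star a) (star a) = star (kr a a) := by
  ext; simp [kr, star_eq_conjTranspose]

lemma kr_sub (a b : Matrix ι ι ℂ) : ‖kr a a - kr b b‖ ≤ ‖a - b‖ * (‖a‖ + ‖b‖) := by
  have : kr a a - kr b b = kr (a - b) a + kr b (a - b) := by
    ext; simp [kr]; ring
  rw [this, mul_add]
  exact (norm_add_le _ _).trans (add_le_add (kr_norm _ _) ((kr_norm _ _).trans_eq (mul_comm _ _)))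

lemma clm_mul (a b : Matrix ι ι ℂ) (v : EuclideanSpace ℂ ι) :
    ‖toEuclideanCLM (𝕜 := ℂ) (a * b) v‖ ≤ ‖a‖ * ‖toEuclideanCLM (𝕜 := ℂ) b v‖ := by
  rw [map_mul]
  exact (toEuclideanCLM (𝕜 := ℂ) a).le_opNorm _

lemma kr_ev' (a X : Matrix ι ι ℂ) (r : ℝ) (hr : 0 ≤ r) :
    ‖toEuclideanCLM (𝕜 := ℂ) (kr a a - 1) ((r : ℂ) • ev X)‖ = r * ‖ev (a * X * star a - X)‖ := by
  rw [map_smul, norm_smul, Complex.norm_real, Real.norm_of_nonneg hr, map_sub, map_one,
    _root_.sub_apply, kr_ev]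
  rfl

end HS

variable {ι : ℕ → Type} [∀ n, Fintype (ι n)] [∀ n, DecidableEq (ι n)] {l : Filter ℕ}

abbrev Mx (ι : ℕ → Type) (n : ℕ) := Matrix (ι n) (ι n) ℂ

noncomputable def adB (a : Bdd (Mx ι)) : Bdd (Mx fun n => ι n × ι n) :=
  ⟨fun n => kr (a.1 n) (a.1 n), by
    obtain ⟨C, hC⟩ := a.2
    exact ⟨C * C, fun n => (kr_norm _ _).trans
      (mul_le_mul (hC n) (hC n) (norm_nonneg _) ((norm_nonneg _).trans (hC n)))⟩⟩

noncomputable def Ad0 : Q (Mx ι) l → Q (Mx fun n => ι n × ι n) l :=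
  Quotient.map' adB fun a b h => by
    obtain ⟨C, hC⟩ := a.2
    obtain ⟨D, hD⟩ := b.2
    have h' : Tendsto (fun n => ‖a.1 n - b.1 n‖ * (C + D)) l (𝓝 0) := by
      simpa using Tendsto.mul_const (C + D) h
    exact squeeze_zero (fun _ => norm_nonneg _) (fun n => (kr_sub _ _).trans
      (mul_le_mul_of_nonneg_left (add_le_add (hC n) (hD n)) (norm_nonneg _))) h'

lemma Ad0_mk (a : Bdd (Mx ι)) : Ad0 (mk _ l a) = mk _ l (adB a) := rfl

noncomputable def Ad : Q (Mx ι) l →* Q (Mx fun n => ι n × ι n) l where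
  toFun := Ad0
  map_one' := by
    rw [← map_one (mk _ l), Ad0_mk, ← map_one (mk _ l)]
    congr 1; exact Subtype.ext (funext fun n => kr_one)
  map_mul' x y := by
    obtain ⟨a, rfl⟩ := mk_surj x; obtain ⟨b, rfl⟩ := mk_surj y
    rw [← map_mul, Ad0_mk, Ad0_mk, Ad0_mk, ← map_mul]
    congr 1; exact Subtype.ext (funext fun n => kr_mul _ _)

lemma Ad_mk (a : Bdd (Mx ι)) : Ad (mk _ l a) = mk _ l (adB a) := rfl

lemma Ad_star (x : Q (Mx ι) l) : star (Ad x) = Ad (star x) := by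
  obtain ⟨a, rfl⟩ := mk_surj x
  rw [← mk_star, Ad_mk, Ad_mk, ← mk_star]
  congr 1; exact Subtype.ext (funext fun n => (kr_star _).symm)

/-- the left ideal of operators that asymptotically kill a sequence of vectors -/
def JJ (l : Filter ℕ) (v : ∀ n, EuclideanSpace ℂ (ι n)) : Ideal (Q (Mx ι) l) where
  carrier := {x | ∃ a, mk _ l a = x ∧
    Tendsto (fun n => ‖toEuclideanCLM (𝕜 := ℂ) (a.1 n) (v n)‖) l (𝓝 0)}
  zero_mem' := ⟨0, map_zero _, by simpa using tendsto_const_nhds⟩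
  add_mem' := by
    rintro _ _ ⟨a, rfl, ha⟩ ⟨b, rfl, hb⟩
    refine ⟨a + b, map_add _ _ _, squeeze_zero (fun _ => norm_nonneg _) (fun n => ?_)
      (by simpa using ha.add hb)⟩
    change ‖toEuclideanCLM (𝕜 := ℂ) (a.1 n + b.1 n) (v n)‖ ≤ _
    rw [map_add]; exact norm_add_le _ _
  smul_mem' := by
    rintro x _ ⟨b, rfl, hb⟩
    obtain ⟨a, rfl⟩ := mk_surj x
    obtain ⟨C, hC⟩ := a.2
    rw [smul_eq_mul]
    have h := hb.const_mul C
    rw [mul_zero] at h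
    exact ⟨a * b, map_mul (mk _ l) a b, squeeze_zero (fun _ => norm_nonneg _) (fun n =>
      (clm_mul (a.1 n) (b.1 n) (v n)).trans (mul_le_mul_of_nonneg_right (hC n) (norm_nonneg _))) h⟩

lemma JJ_iff (v : ∀ n, EuclideanSpace ℂ (ι n)) (C : ℝ) (hv : ∀ n, ‖v n‖ ≤ C) (a : Bdd (Mx ι)) :
    mk _ l a ∈ JJ l v ↔ Tendsto (fun n => ‖toEuclideanCLM (𝕜 := ℂ) (a.1 n) (v n)‖) l (𝓝 0) := by
  refine ⟨fun ⟨b, hb, h⟩ => ?_, fun h => ⟨a, rfl, h⟩⟩
  rw [eq_comm, mk_eq] at hb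
  refine squeeze_zero (fun _ => norm_nonneg _) (fun n => ?_)
    (by simpa using (hb.mul_const C).add h)
  have : a.1 n = (a.1 n - b.1 n) + b.1 n := by abel
  conv_lhs => rw [this, map_add]
  refine (norm_add_le _ _).trans (add_le_add ?_ le_rfl)
  exact (ContinuousLinearMap.le_opNorm _ _).trans
    (mul_le_mul_of_nonneg_left (hv n) (norm_nonneg _))

lemma invol_near {A : Type} [CStarAlgebra A] (u : unitary A) :
    ∃ v : unitary A, v * v = 1 ∧ (‖(1 : A) - u * u‖ ≤ 1 / 52 → ‖(u : A) - v‖ ≤ 4 * ‖(1 : A) - u * u‖) := by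
  by_cases h : ‖(1 : A) - u * u‖ ≤ 1 / 52
  · obtain ⟨ρ, hρ⟩ := Pool.Agent.H.MP_e38963_al.fin_stable
      (fun s : ℤˣ => if s = 1 then 1 else u) _ h fun g k => by
        rcases Int.units_eq_one_or g with rfl | rfl <;>
        rcases Int.units_eq_one_or k with rfl | rfl <;> simp
    exact ⟨ρ (-1), by rw [← map_mul]; simp, fun _ => by simpa using hρ (-1)⟩
  · exact ⟨1, mul_one _, fun h' => absurd h' h⟩

variable {F : Type} [Field F] [Fintype F]

theorem kill (hF : 9 < Fintype.card F) {K : Type} [Group K] (X : Fin 4 → F → K) (hX : Hz X)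
    (t c z : K) (ht : ∀ i a, t * X i a * t⁻¹ ∈ Subgroup.closure {g | ∃ i a, X i a = g})
    (hc : ∀ i a, t * X i a * t⁻¹ * c * (t * X i a * t⁻¹)⁻¹ = c) (hcc : c * c = 1)
    (hzz : z * z = 1) (hz : ∀ g, z * g = g * z)
    (hcz : c * (X 3 1 * c * (X 3 1)⁻¹) = z * (X 3 1 * c * (X 3 1)⁻¹ * c))
    (φ : ∀ n, K → unitaryGroup (ι n) ℂ)
    (hφ : ∀ g h, Tendsto (fun n => ‖(φ n (g * h)).val - (φ n g).val * (φ n h).val‖) atTop (𝓝 0)) :
    Tendsto (fun n => ‖(φ n z).val - 1‖) atTop (𝓝 0) := by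
  by_contra hcon
  obtain ⟨ε, hε, hfr⟩ : ∃ ε > 0, ∃ᶠ n in atTop, ε ≤ ‖(φ n z).val - 1‖ := by
    by_contra h
    push Not at h
    exact hcon (tendsto_order.2 ⟨fun a ha => Eventually.of_forall fun n =>
      ha.trans_le (norm_nonneg _), h⟩)
  let l := atTop ⊓ 𝓟 {n | ε ≤ ‖(φ n z).val - 1‖}
  have : l.NeBot := frequently_iff_neBot.1 hfr
  have hl : ∀ᶠ n in l, ε ≤ ‖(φ n z).val - 1‖ := eventually_inf_principal.2 (.of_forall fun _ h => h)
  have ub : ∀ n (u : unitaryGroup (ι n) ℂ), ‖u.val‖ ≤ 1 := fun n u => by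
    rw [← mul_one u.val, CStarRing.norm_coe_unitary_mul]; exact norm_one_le
  let f : K → Bdd (Mx ι) := fun g => ⟨fun n => (φ n g).val, 1, fun n => ub n _⟩
  have h1 : Tendsto (fun n => ‖(φ n 1).val - 1‖) atTop (𝓝 0) := by
    refine (hφ 1 1).congr fun n => ?_
    rw [mul_one, norm_sub_rev, ← CStarRing.norm_coe_unitary_mul (φ n 1) (_ - 1), mul_sub, mul_one]
  let Φ : K →* Q (Mx ι) l :=
    { toFun := fun g => mk _ l (f g)
      map_one' := by rw [← map_one (mk _ l), mk_eq]; exact h1.mono_left inf_le_left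
      map_mul' := fun g h => by rw [← map_mul, mk_eq]; exact (hφ g h).mono_left inf_le_left }
  have Φf : ∀ g, mk _ l (f g) = Φ g := fun _ => rfl
  have sΦ : ∀ g, star (Φ g) = Φ g⁻¹ := fun g => by
    refine left_inv_eq_right_inv (a := Φ g) ?_ (by rw [← map_mul, mul_inv_cancel, map_one])
    rw [← Φf, ← mk_star, ← map_mul, ← map_one (mk _ l)]
    congr 1; exact Subtype.ext (funext fun n => (φ n g).2.1)
  choose v vv hv using fun n => invol_near (φ n z)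
  have h2 : Tendsto (fun n => ‖1 - (φ n z).val * (φ n z).val‖) l (𝓝 0) := by
    have : mk _ l 1 = mk _ l (f z * f z) := by rw [map_mul, Φf, ← map_mul, hzz, map_one, map_one]
    exact mk_eq.1 this
  have h3 : Tendsto (fun n => ‖(φ n z).val - (v n).val‖) l (𝓝 0) := by
    refine squeeze_zero' (Eventually.of_forall fun _ => norm_nonneg _) ?_
      (by simpa using h2.const_mul 4)
    filter_upwards [h2.eventually_le_const (show (0 : ℝ) < 1 / 52 by norm_num)] with n hn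
    exact hv n hn
  let w : Bdd (Mx ι) := ⟨fun n => (v n).val, 1, fun n => ub n _⟩
  have ww : w * w = 1 := Subtype.ext (funext fun n => congrArg Subtype.val (vv n))
  have sw : star w = w := left_inv_eq_right_inv (Subtype.ext (funext fun n => (v n).2.1)) ww
  have wz : mk _ l w = Φ z := (mk_eq.2 h3).symm
  obtain ⟨e, he⟩ : ∃ e, e = (1 / 2 : ℝ) • (1 - w) := ⟨_, rfl⟩
  have ee : e * e = e := by
    simp only [he, smul_mul_assoc, mul_smul_comm, mul_sub, sub_mul, ww, mul_one, one_mul]; module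
  have se : star e = e := by rw [he, star_smul, star_trivial, star_sub, star_one, sw]
  obtain ⟨E, hE⟩ : ∃ E, mk _ l e = E := ⟨_, rfl⟩
  have hE' : E = (1 / 2 : ℝ) • (1 - Φ z) := by rw [← hE, he, map_smul, map_sub, map_one, wz]
  have EE : E * E = E := by rw [← hE, ← map_mul, ee]
  have sE : star E = E := by rw [← hE, ← mk_star, se]
  have cE : ∀ g, Φ g * E = E * Φ g := fun g => by
    simp only [hE', smul_mul_assoc, mul_smul_comm, mul_sub, sub_mul, ← map_mul, hz, mul_one,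
      one_mul]
  have cE' : ∀ g x, Φ g * (E * x) = E * (Φ g * x) := fun g x => by rw [← mul_assoc, cE, mul_assoc]
  have EE' : ∀ x, E * (E * x) = E * x := fun x => by rw [← mul_assoc, EE]
  have Ez : E * Φ z = -E := by
    simp only [hE', smul_mul_assoc, sub_mul, ← map_mul, hzz, map_one, one_mul]; module
  let α : K →* Q (Mx ι) l :=
    { toFun := fun g => E * Φ g + (1 - E)
      map_one' := by simp
      map_mul' := fun g h => by
        simp only [mul_add, add_mul, mul_sub, sub_mul, mul_assoc, cE, cE', EE, EE', mul_one,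
          one_mul, map_mul]
        abel }
  have αd : ∀ g, α g = E * Φ g + (1 - E) := fun _ => rfl
  have sα : ∀ g, star (α g) = α g⁻¹ := fun g => by
    rw [αd, αd, star_add, star_mul, star_sub, star_one, sE, sΦ, cE]
  let a : K → Bdd (Mx ι) := fun g => e * f g * e + (1 - e)
  have ha : ∀ g, mk _ l (a g) = α g := fun g => by
    simp only [a, map_add, map_mul, map_sub, map_one, hE, Φf, αd, mul_assoc, cE, EE']
  obtain ⟨ξ, hξ⟩ : ∃ ξ, ξ = e * f c * e := ⟨_, rfl⟩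
  have ξe : ξ * e = ξ := by rw [hξ, mul_assoc, ee]
  have mξ : mk _ l ξ = E * Φ c := by simp only [hξ, map_mul, hE, Φf, mul_assoc, cE, EE']
  let η : K → Bdd (Mx ι) := fun g => a g * ξ * star (a g)
  have ηe : ∀ g, η g * e = η g := fun g => by
    have : ξ * (1 - e) = 0 := by rw [mul_sub, ξe, mul_one, sub_self]
    simp only [η, a, star_add, star_mul, star_sub, star_one, se, mul_assoc, mul_add ξ, this,
      add_zero, ee]
  have mη : ∀ g, mk _ l (η g) = E * Φ (g * c * g⁻¹) := fun g => by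
    simp only [η, map_mul, mk_star, ha, sα, mξ]
    simp only [αd, mul_add, add_mul, mul_sub, sub_mul, mul_assoc, cE, cE', EE, EE', mul_one,
      one_mul]
    abel
  let r : ℕ → ℝ := fun n => ‖ev (e.1 n)‖
  have r0 : ∀ n, 0 ≤ r n := fun n => norm_nonneg _
  have key : ∀ Y : Bdd (Mx ι), Y * e = Y → ∀ n, (r n)⁻¹ * ‖ev (Y.1 n)‖ ≤ ‖Y.1 n‖ := by
    intro Y hY n
    have h := ev_mul_l (Y.1 n) (e.1 n)
    have h' : Y.1 n * e.1 n = Y.1 n := congrFun (congrArg Subtype.val hY) n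
    rw [h'] at h
    exact inv_mul_le_of_le_mul₀ (r0 n) (norm_nonneg _) (h.trans_eq (mul_comm _ _))
  have key2 : ∀ Y : Bdd (Mx ι), Y * e = Y → mk _ l Y = 0 →
      Tendsto (fun n => (r n)⁻¹ * ‖ev (Y.1 n)‖) l (𝓝 0) := fun Y hY h0 =>
    squeeze_zero (fun n => mul_nonneg (inv_nonneg.2 (r0 n)) (norm_nonneg _)) (key Y hY)
      (mk_eq_zero.1 h0)
  obtain ⟨C, hC⟩ := ξ.2
  let y : ∀ n, EuclideanSpace ℂ (ι n × ι n) := fun n => (((r n)⁻¹ : ℝ) : ℂ) • ev (ξ.1 n)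
  have nn : ∀ n (u : EuclideanSpace ℂ (ι n × ι n)), ‖(((r n)⁻¹ : ℝ) : ℂ) • u‖ = (r n)⁻¹ * ‖u‖ :=
    fun n u => by rw [norm_smul, Complex.norm_real, Real.norm_of_nonneg (inv_nonneg.2 (r0 n))]
  have hy : ∀ n, ‖y n‖ ≤ C := fun n => by
    rw [nn]; exact (key ξ ξe n).trans (hC n)
  have hJ : ∀ g, (Ad.comp α) g - 1 ∈ JJ l y ↔
      Tendsto (fun n => (r n)⁻¹ * ‖ev ((η g - ξ).1 n)‖) l (𝓝 0) := fun g => by
    rw [MonoidHom.comp_apply, ← ha, Ad_mk, ← map_one (mk _ l), ← map_sub, JJ_iff y C hy]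
    exact tendsto_congr fun n => kr_ev' ((a g).1 n) (ξ.1 n) _ (inv_nonneg.2 (r0 n))
  have hm := (hJ _).1 (main (good fun n x y h => mul_eq_one_comm.1 h) hF (Ad.comp α)
    (fun g => by rw [MonoidHom.comp_apply, MonoidHom.comp_apply, Ad_star, sα]) X hX t ht (JJ l y)
    (fun i b => (hJ _).2 (key2 _ (by rw [sub_mul, ηe, ξe])
      (by rw [map_sub, mη, mξ, hc, sub_self]))) 3 1)
  have k1 := key2 (ξ * ξ - e) (by rw [sub_mul, mul_assoc, ξe, ee]) (by
    simp only [map_sub, map_mul, mξ, hE, mul_assoc, cE', EE']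
    rw [← map_mul, hcc, map_one, mul_one, sub_self])
  have k2 := key2 (ξ * η (X 3 1) + η (X 3 1) * ξ)
    (by rw [add_mul, mul_assoc ξ, mul_assoc (η _), ξe, ηe]) (by
    rw [map_add, map_mul _ ξ, map_mul _ (η _), mξ, mη]
    simp only [mul_assoc E, cE', EE']
    rw [← map_mul, ← map_mul, hcz, map_mul, ← mul_assoc, Ez]
    simp)
  have k3 := ((k2.add (k1.const_mul 2)).add (hm.const_mul (2 * C))).eventually_lt_const
    (show 0 + 2 * 0 + 2 * C * 0 < (1 : ℝ) by norm_num)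
  obtain ⟨n, ⟨q1, q2⟩, q3⟩ := ((k3.and hl).and (h3.eventually_lt_const hε)).exists
  have rp : 0 < r n := by
    refine (r0 n).lt_of_ne fun h0 => ?_
    have h4 : e.1 n = 0 := ev_eq_zero h0.symm
    have h5 : (1 / 2 : ℝ) • (1 - (v n).val) = 0 := by rw [← h4, he]; rfl
    rw [smul_eq_zero, sub_eq_zero] at h5
    rw [← h5.resolve_left (by norm_num)] at q3
    linarith
  have q4 : e + e = (ξ * η (X 3 1) + η (X 3 1) * ξ) - (ξ * ξ - e) - (ξ * ξ - e)
      - ξ * (η (X 3 1) - ξ) - (η (X 3 1) - ξ) * ξ := by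
    rw [mul_sub ξ, sub_mul _ ξ]; abel
  have q5 : ev (e.1 n) + ev (e.1 n) = ev ((ξ * η (X 3 1) + η (X 3 1) * ξ).1 n)
      - ev ((ξ * ξ - e).1 n) - ev ((ξ * ξ - e).1 n) - ev (ξ.1 n * (η (X 3 1) - ξ).1 n)
      - ev ((η (X 3 1) - ξ).1 n * ξ.1 n) :=
    congrArg (fun u : Bdd (Mx ι) => ev (u.1 n)) q4
  have q6 := (ev_mul_l (ξ.1 n) ((η (X 3 1) - ξ).1 n)).trans
    (mul_le_mul_of_nonneg_right (hC n) (norm_nonneg _))
  have q7 := (ev_mul_r ((η (X 3 1) - ξ).1 n) (ξ.1 n)).trans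
    (mul_le_mul_of_nonneg_right (hC n) (norm_nonneg _))
  have q8 : 2 * r n ≤ ‖ev ((ξ * η (X 3 1) + η (X 3 1) * ξ).1 n)‖ + 2 * ‖ev ((ξ * ξ - e).1 n)‖
      + 2 * C * ‖ev ((η (X 3 1) - ξ).1 n)‖ := by
    have : 2 * r n = ‖ev (e.1 n) + ev (e.1 n)‖ := by
      rw [← two_smul ℝ, norm_smul]; simp [r]
    rw [this, q5]
    refine (norm_sub_le _ _).trans ((add_le_add ((norm_sub_le _ _).trans (add_le_add
      ((norm_sub_le _ _).trans (add_le_add (norm_sub_le _ _) le_rfl)) q6)) q7).trans_eq ?_)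
    ring
  have q9 := mul_le_mul_of_nonneg_left q8 (inv_nonneg.2 rp.le)
  rw [mul_left_comm, inv_mul_cancel₀ rp.ne'] at q9
  linarith

end Pool.Agent.H.MP_a51306_an
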