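import Pool.Agent.H.MP_a51306_an.A
import Pool.Agent.H.MP_94dfa5_al.A

set_option autoImplicit false
set_option linter.unusedSectionVars false
set_option linter.unusedSimpArgs false

namespace Pool.Agent.H.MP_a51306_an

open Pool.Agent.H.MP_94dfa5_al
open scoped Pointwise

section Gen
variable {F : Type} [Field F] {K K' : Type} [Group K] [Group K']

lemma map_Wd (h : K →* K') (X : Fin 4 → F → K) (i j : Fin 4) (s : F) :
    h (Wd X i j s) = Wd (fun i a => h (X i a)) i j s := by simp [Wd]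

lemma Hz.map {X : Fin 4 → F → K} (hX : Hz X) (h : K →* K') : Hz fun i a => h (X i a) where
  add i a b := by rw [← map_mul, hX.add]
  heis i j a b := by rw [← map_Wd, ← map_mul, ← map_mul, ← map_mul, hX.heis]
  wadd i j a b := by rw [← map_Wd, ← map_Wd, ← map_Wd, ← map_mul, hX.wadd]
  c1 i j a b := by rw [← map_Wd, ← map_mul, ← map_mul, hX.c1]
  c2 i j a b := by rw [← map_Wd, ← map_mul, ← map_mul, hX.c2]

lemma Hz.of_inj {X : Fin 4 → F → K} (h : K →* K') (hh : Function.Injective h)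
    (hX : Hz fun i a => h (X i a)) : Hz X where
  add i a b := hh (by rw [map_mul, hX.add])
  heis i j a b := hh (by rw [map_mul, map_mul, map_mul, map_Wd, hX.heis])
  wadd i j a b := hh (by rw [map_mul, map_Wd, map_Wd, map_Wd, hX.wadd])
  c1 i j a b := hh (by rw [map_mul, map_mul, map_Wd, hX.c1])
  c2 i j a b := hh (by rw [map_mul, map_mul, map_Wd, hX.c2])

lemma Hz.pi {I : Type} {L : I → Type} [∀ n, Group (L n)] {X : Fin 4 → F → ∀ n, L n}
    (hX : ∀ n, Hz fun i a => X i a n) : Hz X where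
  add i a b := funext fun n => (hX n).add i a b
  heis i j a b := funext fun n => (hX n).heis i j a b
  wadd i j a b := funext fun n => (hX n).wadd i j a b
  c1 i j a b := funext fun n => (hX n).c1 i j a b
  c2 i j a b := funext fun n => (hX n).c2 i j a b

lemma Hz.pow {X : Fin 4 → F → K} (hX : Hz X) (i : Fin 4) (n : ℕ) : X i 1 ^ n = X i n := by
  induction n with
  | zero => rw [pow_zero, Nat.cast_zero, eq_comm]; simpa using hX.add i 0 0
  | succ n ih => rw [pow_succ, ih, hX.add, Nat.cast_succ]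

def cm (a b : K) : K := a * b * a⁻¹ * b⁻¹

def tau (X : Fin 4 → F → K) (i : Fin 4) (a : F) : K :=
  if i = 3 then cm (X 2 1) (cm (X 1 1) (cm (X 0 1) (X 3 a))) else X i a

lemma map_tau (h : K →* K') (X : Fin 4 → F → K) (i : Fin 4) (s : F) :
    h (tau X i s) = tau (fun i a => h (X i a)) i s := by
  unfold tau; split_ifs <;> simp [cm]

lemma tau_mem (X : Fin 4 → F → K) (i : Fin 4) (a : F) :
    tau X i a ∈ Subgroup.closure {g | ∃ i a, X i a = g} := by
  have h : ∀ i a, X i a ∈ Subgroup.closure {g | ∃ i a, X i a = g} := fun i a =>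
    Subgroup.subset_closure ⟨i, a, rfl⟩
  have c : ∀ x y, x ∈ Subgroup.closure {g | ∃ i a, X i a = g} →
      y ∈ Subgroup.closure {g | ∃ i a, X i a = g} →
      cm x y ∈ Subgroup.closure {g | ∃ i a, X i a = g} := fun x y hx hy =>
    mul_mem (mul_mem (mul_mem hx hy) (inv_mem hx)) (inv_mem hy)
  unfold tau
  split_ifs
  · exact c _ _ (h _ _) (c _ _ (h _ _) (c _ _ (h _ _) (h _ _)))
  · exact h _ _

variable {R : Type} [Ring R] [Algebra F R]

def un (N : R) (h : N * N = 0) (a : F) : Rˣ :=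
  ⟨1 + a • N, 1 - a • N, by simp [mul_sub, add_mul, h], by simp [sub_mul, mul_add, h]⟩

lemma un_val (N : R) (h : N * N = 0) (a : F) : (un N h a : R) = 1 + a • N := rfl
lemma un_inv (N : R) (h : N * N = 0) (a : F) : ((un N h a)⁻¹ : Rˣ).val = 1 - a • N := rfl

lemma hz_un (N : Fin 4 → R) (h1 : ∀ i, N i * N i = 0) (h2 : ∀ i j, N i * (N j * N i) = 0) :
    Hz fun i (a : F) => un (N i) (h1 i) a := by
  have h1' : ∀ i x, N i * (N i * x) = 0 := fun i x => by rw [← mul_assoc, h1, zero_mul]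
  have h2' : ∀ i j x, N i * (N j * (N i * x)) = 0 := fun i j x => by
    rw [← mul_assoc (N j), ← mul_assoc, h2, zero_mul]
  have w : ∀ i j s, (Wd (fun i (a : F) => un (N i) (h1 i) a) i j s : Rˣ).val =
      1 + s • (N i * N j - N j * N i) := fun i j s => by
    simp only [Wd, mul_inv_rev, Units.val_mul, un_val, un_inv, mul_add, add_mul, mul_sub, sub_mul,
      mul_one, one_mul, smul_mul_assoc, mul_smul_comm, mul_assoc, h1, h2, h1', h2', smul_zero,
      one_smul, mul_zero]
    module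
  constructor
  all_goals
    intros
    refine Units.ext ?_
    simp only [Units.val_mul, w, un_val, mul_add, add_mul, mul_sub, sub_mul,
      mul_one, one_mul, smul_mul_assoc, mul_smul_comm, mul_assoc, h1, h2, h1', h2', smul_zero,
      mul_zero]
    module

lemma cm_un (A B : R) (hA : A * A = 0) (hB : B * B = 0) (hBA : B * A = 0) (C : R) (hC : A * B = C)
    (hC2 : C * C = 0) (s : F) : cm (un A hA (1 : F)) (un B hB s) = un C hC2 s := by
  have h1 : ∀ x, A * (A * x) = 0 := fun x => by rw [← mul_assoc, hA, zero_mul]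
  have h2 : ∀ x, B * (A * x) = 0 := fun x => by rw [← mul_assoc, hBA, zero_mul]
  refine Units.ext ?_
  simp only [cm, Units.val_mul, un_val, un_inv, mul_add, add_mul, mul_sub, sub_mul, ← hC,
    mul_one, one_mul, smul_mul_assoc, mul_smul_comm, mul_assoc, hA, hB, hBA, h1, h2, smul_zero,
    one_smul, mul_zero]
  module

end Gen

abbrev FF := ZMod 11
instance : Fact (Nat.Prime 11) := ⟨by norm_num⟩

variable {L : ℕ}

abbrev V (L : ℕ) := Fin L → FF

def gv (k : ℕ) : V L →ₗ[FF] FF where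
  toFun v := if h : k < L then v ⟨k, h⟩ else 0
  map_add' u v := by split_ifs <;> simp
  map_smul' a v := by split_ifs <;> simp

lemma gv_ext {u v : V L} (h : ∀ k, k < L → gv k u = gv k v) : u = v := by
  funext i
  simpa [gv] using h i i.2

open Classical in
noncomputable def Op (P : ℕ → Prop) (σ : ℕ → ℕ) : Module.End FF (V L) :=
  LinearMap.pi fun i => if P i then gv (σ i) else 0

open Classical in
lemma gv_Op (P : ℕ → Prop) (σ : ℕ → ℕ) (v : V L) (k : ℕ) :
    gv k (Op P σ v) = if k < L ∧ P k then gv (σ k) v else 0 := by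
  by_cases h : k < L <;> by_cases h' : P k <;> simp [gv, Op, h, h']

def PP (i : Fin 4) (m k : ℕ) : Prop := if i = 3 then k = m + 1 else 1 < k ∧ (k + 1) % 3 = i
def sg (i : Fin 4) (k : ℕ) : ℕ := if i = 3 then 0 else k - 1

noncomputable def NN (i : Fin 4) (m : ℕ) : Module.End FF (V L) := Op (PP i m) (sg i)

lemma NN1 (m : ℕ) (i : Fin 4) : (NN i m * NN i m : Module.End FF (V L)) = 0 := by
  refine LinearMap.ext fun v => gv_ext fun k hk => ?_
  simp only [NN, Module.End.mul_apply, gv_Op, LinearMap.zero_apply, map_zero]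
  fin_cases i <;> simp [PP, sg] <;> omega

lemma NN2 (m : ℕ) (i j : Fin 4) : (NN i m * (NN j m * NN i m) : Module.End FF (V L)) = 0 := by
  refine LinearMap.ext fun v => gv_ext fun k hk => ?_
  simp only [NN, Module.End.mul_apply, gv_Op, LinearMap.zero_apply, map_zero]
  fin_cases i <;> fin_cases j <;> simp [PP, sg] <;> omega

lemma NN3 (m m' : ℕ) (i : Fin 4) : (NN 3 m * NN i m' : Module.End FF (V L)) = 0 := by
  refine LinearMap.ext fun v => gv_ext fun k hk => ?_
  simp only [NN, Module.End.mul_apply, gv_Op, LinearMap.zero_apply, map_zero]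
  fin_cases i <;> simp [PP, sg]

lemma NN4 (m m' : ℕ) (i : Fin 4) (hi : i ≠ 3) (h : m % 3 = i) :
    (NN i m' * NN 3 m : Module.End FF (V L)) = NN 3 (m + 1) := by
  refine LinearMap.ext fun v => gv_ext fun k hk => ?_
  simp only [NN, Module.End.mul_apply, gv_Op, PP, sg, if_neg hi, if_true]
  split_ifs <;> first | rfl | omega

lemma NN5 (m m' : ℕ) (i : Fin 4) (hi : i ≠ 3) : (NN i m : Module.End FF (V L)) = NN i m' := by
  unfold NN PP; simp only [if_neg hi]

noncomputable def uu (m : ℕ) (i : Fin 4) (a : FF) : (Module.End FF (V L))ˣ :=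
  un (NN i m) (NN1 m i) a

lemma uu_hz (m : ℕ) : Hz (uu (L := L) m) := hz_un _ (NN1 m) (NN2 m)

lemma uu_tau (j : ℕ) (i : Fin 4) (a : FF) : tau (uu (L := L) (3 * j)) i a = uu (3 * (j + 1)) i a := by
  unfold tau
  split_ifs with h
  · subst h
    unfold uu
    rw [cm_un _ _ _ _ (NN3 _ _ _) _ (NN4 _ _ 0 (by decide) (by simp)) (NN1 _ _),
      cm_un _ _ _ _ (NN3 _ _ _) _ (NN4 _ _ 1 (by decide) (by simp [Nat.add_mod])) (NN1 _ _),
      cm_un _ _ _ _ (NN3 _ _ _) _ (NN4 _ _ 2 (by decide) (by simp; omega)) (NN1 _ _)]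
    rfl
  · refine Units.ext ?_
    rw [uu, uu, un_val, un_val, NN5 _ _ i h]

def dl (w : V L) (m : ℕ) (s : FF) : Prop := (∀ i, i < m → gv i w = 0) ∧ gv m w = s

def Th0 (L : ℕ) : Subgroup (Module.End FF (V L))ˣ where
  carrier := {g | ∀ (w : V L) m s, dl (g • w) m s ↔ dl w m s}
  one_mem' := by simp
  mul_mem' {a b} ha hb w m s := by rw [mul_smul, ha, hb]
  inv_mem' {a} ha w m s := by rw [← ha, smul_inv_smul]

lemma uu_smul (m : ℕ) (i : Fin 4) (a : FF) (w : V L) :
    uu (L := L) m i a • w = w + a • NN i m w := rfl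

lemma dl_uu (m : ℕ) (i : Fin 4) (a : FF) (w : V L) (k : ℕ) (s : FF) (h : dl w k s) :
    dl (uu (L := L) m i a • w) k s := by
  have key : ∀ k', k' ≤ k → gv k' (NN i m w) = 0 := fun k' hk => by
    rw [NN, gv_Op]
    split_ifs with h1
    · refine h.1 _ ?_
      have := h1.2
      unfold PP at this; unfold sg
      split_ifs at this ⊢ <;> omega
    · rfl
  refine ⟨fun k' hk => ?_, ?_⟩
  · rw [uu_smul, map_add, map_smul, key k' hk.le, h.1 k' hk, smul_zero, add_zero]
  · rw [uu_smul, map_add, map_smul, key k le_rfl, h.2, smul_zero, add_zero]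

lemma uu_mem (m : ℕ) (i : Fin 4) (a : FF) : uu m i a ∈ Th0 L := fun w k s =>
  ⟨fun h => by
    have := dl_uu m i (-a) _ k s h
    rwa [← mul_smul, (uu_hz m).add, neg_add_cancel, uu_smul, zero_smul, add_zero] at this,
   dl_uu m i a w k s⟩

def CC (m : ℕ) (u : V L) : Set (V L) := {w | dl (w - u) m 0}

lemma smul_CC (g : Th0 L) (m : ℕ) (u : V L) : g • CC m u = CC m (g • u) := by
  ext w
  rw [Set.mem_smul_set_iff_inv_smul_mem]
  change dl _ _ _ ↔ dl _ _ _
  rw [← g.2, smul_sub]
  change dl (g • g⁻¹ • w - g • u) m 0 ↔ _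
  rw [smul_inv_smul]

lemma CC_eq (m : ℕ) (u v : V L) (h : dl (u - v) m 0) : CC m u = CC m v := by
  ext w
  have e : ∀ k, k ≤ m → gv k (w - u) = gv k (w - v) := fun k hk => by
    have : gv k (u - v) = 0 := by
      rcases hk.lt_or_eq with h1 | rfl
      · exact h.1 k h1
      · exact h.2
    rw [map_sub] at this ⊢
    rw [map_sub, sub_eq_zero.1 this]
  exact and_congr (forall₂_congr fun k hk => by rw [e k hk.le]) (by rw [e m le_rfl])

lemma mem_CC (m : ℕ) (u : V L) : u ∈ CC m u := by simp [CC, dl]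

def lam (A B : Set (V L)) : Prop := ∃ m u v, dl (v - u) m 1 ∧ A = CC m u ∧ B = CC m v

lemma lam_smul (g : Th0 L) (A B : Set (V L)) : lam (g • A) (g • B) ↔ lam A B := by
  have key : ∀ (g : Th0 L) (A B : Set (V L)), lam A B → lam (g • A) (g • B) := by
    rintro g _ _ ⟨m, u, v, h, rfl, rfl⟩
    exact ⟨m, g • u, g • v, by rw [← smul_sub]; exact (g.2 _ _ _).2 h, smul_CC _ _ _, smul_CC _ _ _⟩
  exact ⟨fun h => by simpa using key g⁻¹ _ _ h, key g A B⟩

lemma lam_gv {m : ℕ} {u v : V L} (h : lam (CC m u) (CC m v)) : ∃ k, gv k (v - u) = 1 := by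
  obtain ⟨k, u', v', h1, h2, h3⟩ := h
  have h4 : u ∈ CC k u' := h2 ▸ mem_CC m u
  have h5 : v ∈ CC k v' := h3 ▸ mem_CC m v
  have h6 := h4.2
  have h7 := h5.2
  have h8 := h1.2
  rw [map_sub] at h6 h7 h8
  exact ⟨k, by rw [map_sub, sub_eq_zero.1 h6, sub_eq_zero.1 h7, h8]⟩

open Classical in
noncomputable def βD (L : ℕ) : Bi (Set (V L) → ZMod 2) (ZMod 2) where
  B f g := ∑ A, ∑ B, if lam A B then f A * g B else 0
  l a b c := by
    simp only [← Finset.sum_add_distrib]
    refine Finset.sum_congr rfl fun A _ => Finset.sum_congr rfl fun B _ => ?_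
    split_ifs <;> simp [add_mul]
  r a b c := by
    simp only [← Finset.sum_add_distrib]
    refine Finset.sum_congr rfl fun A _ => Finset.sum_congr rfl fun B _ => ?_
    split_ifs <;> simp [mul_add]

open Classical in
lemma βD_single (A B : Set (V L)) :
    (βD L).B (Pi.single A 1) (Pi.single B 1) = if lam A B then 1 else 0 := by
  simp only [βD]
  rw [Finset.sum_eq_single A, Finset.sum_eq_single B]
  · simp
  · intro C _ hC; simp [hC]
  · simp
  · intro C _ hC; simp [hC]
  · simp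

lemma βD_smul (g : Th0 L) (f f' : Set (V L) → ZMod 2) :
    (βD L).B (fun A => f (g • A)) (fun A => f' (g • A)) = (βD L).B f f' := by
  classical
  simp only [βD]
  refine Fintype.sum_equiv (MulAction.toPerm g) _ _ fun A =>
    Fintype.sum_equiv (MulAction.toPerm g) _ _ fun B => ?_
  simp only [MulAction.toPerm_apply]
  exact if_congr (lam_smul g A B).symm rfl rfl

noncomputable def act (g : Th0 L) : Hs (βD L) →* Hs (βD L) := MonoidHom.mk'
  (fun x => ⟨fun A => x.v (g⁻¹ • A), x.z⟩) fun x y => Hs.ext rfl (by simp [βD_smul])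

lemma act_mul (g h : Th0 L) (x : Hs (βD L)) : act (g * h) x = act g (act h x) :=
  Hs.ext (funext fun A => by simp [act, mul_smul]) rfl

lemma act_one (x : Hs (βD L)) : act 1 x = x := Hs.ext (funext fun A => by simp [act]) rfl

noncomputable def psi : Th0 L →* MulAut (Hs (βD L)) := MonoidHom.mk'
  (fun g =>
    { toFun := act g
      invFun := act g⁻¹
      left_inv := fun x => by rw [← act_mul, inv_mul_cancel, act_one]
      right_inv := fun x => by rw [← act_mul, mul_inv_cancel, act_one]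
      map_mul' := map_mul _ })
  (fun a b => by ext1 x; exact act_mul _ _ x)

abbrev Th (L : ℕ) := SemidirectProduct (Hs (βD L)) (Th0 L) psi

instance : Finite (Module.End FF (V L)) := Finite.of_injective _ DFunLike.coe_injective

instance : Finite (Th L) := Finite.of_equiv _ SemidirectProduct.equivProd.symm

noncomputable def xx (m : ℕ) (i : Fin 4) (a : FF) : Th L :=
  SemidirectProduct.inr ⟨uu m i a, uu_mem m i a⟩

open Classical in
noncomputable def pt (A : Set (V L)) : Th L := SemidirectProduct.inl ⟨Pi.single A 1, 0⟩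

noncomputable def zz : Th L := SemidirectProduct.inl ⟨0, 1⟩

def f0 : V L := fun i => if i.val = 0 then 1 else 0

lemma gv_f0 (k : ℕ) : gv k (f0 : V L) = if k < L ∧ k = 0 then 1 else 0 := by
  by_cases h : k < L <;> simp [gv, f0, h]

noncomputable def cc (m : ℕ) : Th L := pt (CC (m + 1) f0)

lemma xx_hz (m : ℕ) : Hz (xx (L := L) m) :=
  (Hz.of_inj (X := fun i a => (⟨uu m i a, uu_mem m i a⟩ : Th0 L)) (Th0 L).subtype
    Subtype.val_injective (uu_hz m)).map SemidirectProduct.inr

lemma xx_tau (j : ℕ) (i : Fin 4) (a : FF) :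
    tau (xx (L := L) (3 * j)) i a = xx (3 * (j + 1)) i a := by
  unfold xx
  rw [← map_tau]
  congr 1
  exact Subtype.ext ((map_tau (Th0 L).subtype _ i a).trans (uu_tau j i a))

lemma conj_pt (g : Th0 L) (A : Set (V L)) :
    SemidirectProduct.inr g * pt A * (SemidirectProduct.inr g)⁻¹ = pt (g • A) := by
  classical
  rw [pt, ← map_inv, ← SemidirectProduct.inl_aut, pt]
  congr 1
  refine Hs.ext (funext fun B => ?_) rfl
  change (Pi.single A 1 : Set (V L) → ZMod 2) (g⁻¹ • B) = _
  simp only [Pi.single_apply, inv_smul_eq_iff]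

lemma conj_cc (m m' : ℕ) (i : Fin 4) (a : FF) :
    xx m i a * cc m' * (xx m i a)⁻¹ = pt (L := L) (CC (m' + 1) (f0 + a • NN i m f0)) := by
  rw [xx, cc, conj_pt, smul_CC]; rfl

lemma gv_NN (m k : ℕ) (i : Fin 4) :
    gv k (NN i m (f0 : V L)) = if k < L ∧ i = 3 ∧ k = m + 1 then 1 else 0 := by
  rw [NN, gv_Op, gv_f0]
  unfold PP sg
  split_ifs <;> first | rfl | omega

lemma cc_fix (m : ℕ) (i : Fin 4) (a : FF) :
    xx (m + 3) i a * cc m * (xx (m + 3) i a)⁻¹ = cc (L := L) m := by
  rw [conj_cc, cc]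
  congr 1
  refine CC_eq _ _ _ ⟨fun k hk => ?_, ?_⟩ <;>
    rw [add_sub_cancel_left, map_smul, gv_NN, if_neg (by omega), smul_zero]

lemma pt_mul (A B : Set (V L)) (h1 : lam A B) (h2 : ¬ lam B A) :
    pt A * pt B = zz * (pt B * pt A) := by
  simp only [pt, zz, ← map_mul]
  congr 1
  refine Hs.ext (by simp [add_comm]) ?_
  simp [βD_single, h1, h2, Bi.zl]

lemma cc_rel (m : ℕ) (hm : m + 1 < L) :
    cc m * (xx m 3 1 * cc m * (xx m 3 1)⁻¹) = zz (L := L) * (xx m 3 1 * cc m * (xx m 3 1)⁻¹ * cc m) := by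
  rw [conj_cc, cc]
  refine pt_mul _ _ ⟨m + 1, _, _, ⟨fun k hk => ?_, ?_⟩, rfl, rfl⟩ fun h => ?_
  · rw [add_sub_cancel_left, one_smul, gv_NN, if_neg (by omega)]
  · rw [add_sub_cancel_left, one_smul, gv_NN, if_pos ⟨hm, rfl, rfl⟩]
  · obtain ⟨k, hk⟩ := lam_gv h
    rw [sub_add_cancel_left, map_neg, one_smul, gv_NN] at hk
    split_ifs at hk <;> revert hk <;> decide

lemma cc_sq (m : ℕ) : cc m * cc m = (1 : Th L) := by
  have : ¬ lam (CC (m + 1) (f0 : V L)) (CC (m + 1) f0) := fun h => by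
    obtain ⟨k, hk⟩ := lam_gv h
    simp at hk
  simp only [cc, pt, ← map_mul]
  rw [← map_one SemidirectProduct.inl]
  congr 1
  refine Hs.ext ?_ ?_
  · funext A; simp [CharTwo.add_self_eq_zero]
  · simp [βD_single, this]

lemma cc_ne (m : ℕ) : cc m ≠ (1 : Th L) := fun h => by
  simpa [cc, pt] using congrArg (fun x : Th L => x.left.v (CC (m + 1) f0)) h

lemma zz_sq : zz * zz = (1 : Th L) := by
  simp only [zz, ← map_mul]
  rw [← map_one SemidirectProduct.inl]
  congr 1
  refine Hs.ext (by simp) ?_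
  simp [Bi.zl]; rfl

lemma zz_ne : zz ≠ (1 : Th L) := fun h => by
  simpa [zz] using congrArg (fun x : Th L => x.left.z) h

lemma zz_comm (g : Th L) : zz * g = g * zz := by
  have : psi g.right (⟨0, 1⟩ : Hs (βD L)) = ⟨0, 1⟩ := rfl
  refine SemidirectProduct.ext ?_ (by simp [zz])
  simp only [zz, SemidirectProduct.mul_left, SemidirectProduct.left_inl,
    SemidirectProduct.right_inl, map_one, MulAut.one_apply, this]
  refine Hs.ext (by simp) ?_
  simp [Bi.zl, Bi.zr, add_comm]

lemma xx_ne (m : ℕ) (hm : m + 5 < L) (i : Fin 4) : xx m i 1 ≠ (1 : Th L) := fun h => by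
  have h1 : uu (L := L) m i 1 = 1 := congrArg (fun x : Th L => x.right.1) h
  have h2 := congrArg (fun g : (Module.End FF (V L))ˣ => g • (fun _ => 1 : V L)) h1
  simp only [uu_smul, one_smul, add_eq_left] at h2
  have h3 : ∀ k, k < L → PP i m k → sg i k < L → False := fun k h3 h4 h5 => by
    have := congrArg (gv k) h2
    rw [NN, gv_Op, if_pos ⟨h3, h4⟩] at this
    simp [gv, h5] at this
  by_cases hi : i = 3
  · exact h3 (m + 1) (by omega) (by simp [PP, hi]) (by simp [sg, hi]; omega)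
  · have := i.2
    have : i.val ≠ 3 := fun h => hi (Fin.ext h)
    exact h3 (i + 2) (by omega) (by simp only [PP, if_neg hi]; omega)
      (by simp only [sg, if_neg hi]; omega)

end Pool.Agent.H.MP_a51306_an
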