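import Pool.Agent.H.MP_a51306_an.C
import Pool.Agent.H.MP_a51306_an.D
import Pool.Agent.H.MP_e38963_al.B

set_option autoImplicit false
set_option linter.unusedSectionVars false
set_option linter.unusedSimpArgs false
set_option linter.unnecessarySimpa false

namespace Pool.Agent.H.MP_a51306_an

open Pool.Agent.H.MP_94dfa5_al Filter Topology Equiv
open scoped Matrix.Norms.L2Operator

lemma conj_free {X : Type} [Finite X] (p : ℕ) [hp : Fact p.Prime] (σ τ : Perm X) (h1 : σ ^ p = 1)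
    (h2 : τ ^ p = 1) (f1 : ∀ x, σ x ≠ x) (f2 : ∀ x, τ x ≠ x) : ∃ a, σ = a * τ * a⁻¹ := by
  classical
  let _ := Fintype.ofFinite X
  have key : ∀ σ : Perm X, σ ^ p = 1 → (∀ x, σ x ≠ x) →
      σ.cycleType = Multiset.replicate (Fintype.card X / p) p := fun σ h f => by
    have e1 := Perm.cycleType_of_pow_prime_eq_one h
    have e2 := σ.sum_cycleType
    rw [e1, Multiset.sum_replicate, Finset.eq_univ_of_forall fun x => Perm.mem_support.2 (f x),
      Finset.card_univ, smul_eq_mul] at e2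
    rw [← e2, Nat.mul_div_cancel _ hp.out.pos]; exact e1
  obtain ⟨a, ha⟩ := isConj_iff.1 (Perm.isConj_iff_cycleType_eq.2
    ((key τ h2 f2).trans (key σ h1 f1).symm))
  exact ⟨a, ha.symm⟩

section Lev
variable {Y : Type} [Group Y] {n : ℕ}

def lev : (Fin (n + 1) → Y) →* Perm (Y × Fin (n + 1)) := MonoidHom.mk'
  (fun s => ⟨fun p => (s p.2 * p.1, p.2), fun p => ((s p.2)⁻¹ * p.1, p.2),
    fun p => by simp, fun p => by simp⟩) fun s t => by ext p <;> simp [mul_assoc]

lemma lev_apply (s : Fin (n + 1) → Y) (p : Y × Fin (n + 1)) : lev s p = (s p.2 * p.1, p.2) := rfl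

def tt (Y : Type) (n : ℕ) : Perm (Y × Fin (n + 1)) := (Equiv.refl Y).prodCongr (Equiv.subRight 1)

lemma tt_lev (s : Fin (n + 1) → Y) : tt Y n * lev s * (tt Y n)⁻¹ = lev fun j => s (j + 1) := by
  rw [mul_inv_eq_iff_eq_mul]
  ext p <;> simp [tt, lev_apply]

lemma lev_free (s : Fin (n + 1) → Y) (h : ∀ j, s j ≠ 1) (p : Y × Fin (n + 1)) : lev s p ≠ p :=
  fun e => h p.2 (by simpa [lev_apply] using congrArg Prod.fst e)

lemma dH_lev [Fintype (Y × Fin (n + 1))] [DecidableEq (Y × Fin (n + 1))] (s s' : Fin (n + 1) → Y)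
    (h : ∀ j, j ≠ Fin.last n → s j = s' j) : dH (lev s) (lev s') ≤ 1 / ((n : ℝ) + 1) := by
  classical
  have : Finite Y := Finite.of_injective (fun y : Y => (y, (0 : Fin (n + 1)))) fun a b h => by
    simpa using h
  let _ := Fintype.ofFinite Y
  have h1 : (Finset.univ.filter fun p => lev s p ≠ lev s' p) ⊆
      Finset.univ.image fun y : Y => (y, Fin.last n) := by
    intro p hp
    refine Finset.mem_image.2 ⟨p.1, Finset.mem_univ _, Prod.ext rfl ?_⟩
    by_contra h2
    exact (Finset.mem_filter.1 hp).2 (by rw [lev_apply, lev_apply, h _ (Ne.symm h2)])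
  have h2 := (Finset.card_le_card h1).trans Finset.card_image_le
  have h3 : Fintype.card (Y × Fin (n + 1)) = Fintype.card Y * (n + 1) := by
    rw [← Nat.card_eq_fintype_card, Nat.card_prod, Nat.card_eq_fintype_card,
      Nat.card_eq_fintype_card, Fintype.card_fin]
  have h4 : (0 : ℝ) < Fintype.card Y := by exact_mod_cast Fintype.card_pos
  rw [dH, h3, div_le_div_iff₀ (by positivity) (by positivity)]
  rw [Finset.card_univ] at h2
  push_cast
  have h5 : ((Finset.univ.filter fun p => lev s p ≠ lev s' p).card : ℝ) ≤ Fintype.card Y := by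
    exact_mod_cast h2
  nlinarith

end Lev

abbrev Ps (n : ℕ) := Th (3 * n + 6) × DihedralGroup 11
abbrev Om (n : ℕ) := Ps n × Fin (n + 1)
noncomputable instance (n : ℕ) : Fintype (Om n) := Fintype.ofFinite _
noncomputable instance (n : ℕ) : DecidableEq (Om n) := Classical.decEq _

abbrev PP' := ∀ n, Perm (Om n)
abbrev Lv := ∀ n, Fin (n + 1) → Ps n

def Null : Subgroup PP' where
  carrier := {s | Tendsto (fun n => dH (s n) 1) atTop (𝓝 0)}
  one_mem' := by simpa [dH_self] using tendsto_const_nhds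
  mul_mem' {a b} ha hb := squeeze_zero (fun _ => dH_nonneg _ _)
    (fun n => by simpa using dH_mul (a n) (b n) 1 1) (by simpa using Tendsto.add ha hb)
  inv_mem' {a} ha := Tendsto.congr (fun n => by simpa using (dH_inv (a n) 1).symm) ha

instance : Null.Normal := ⟨fun a ha g => Tendsto.congr (fun n => by
  rw [← dH_left (g n), ← dH_right (g n)⁻¹]; simp) ha⟩

lemma mk_eq' (a b : PP') : (a : PP' ⧸ Null) = b ↔ Tendsto (fun n => dH (a n) (b n)) atTop (𝓝 0) := by
  rw [QuotientGroup.eq]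
  refine tendsto_congr fun n => ?_
  rw [← dH_left (a n), dH_comm]; simp

abbrev Gen := (Fin 4 × FF) ⊕ (Fin 4 × Bool) ⊕ Fin 4
abbrev G' := (PP' ⧸ Null) × FreeGroup Gen

noncomputable def LV : Lv →* PP' := MonoidHom.mk' (fun s n => lev (s n))
  fun _ _ => funext fun _ => map_mul _ _ _

noncomputable def J1 : PP' →* G' := (MonoidHom.inl _ _).comp (QuotientGroup.mk' Null)
noncomputable def J : Lv →* G' := J1.comp LV

noncomputable def xs (i : Fin 4) (a : FF) : Lv := fun _ j => (xx (3 * j) i a, 1)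
noncomputable def cs : Lv := fun _ j => (cc (3 * j), 1)
noncomputable def zs : Lv := fun _ _ => (zz, 1)

lemma xs_hz : Hz xs := Hz.pi fun n => Hz.pi fun j =>
  (xx_hz (L := 3 * n + 6) (3 * j)).map (MonoidHom.inl _ (DihedralGroup 11))

lemma xs_tau (i : Fin 4) (a : FF) (n : ℕ) (j : Fin (n + 1)) :
    tau xs i a n j = (xx (3 * (j + 1)) i a, 1) := by
  rw [← xx_tau]
  unfold tau
  split_ifs
  · exact Prod.ext rfl (by simp [cm, xs])
  · rfl

lemma zs_sq : zs * zs = 1 := funext fun _ => funext fun _ => Prod.ext zz_sq (mul_one _)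
lemma cs_sq : cs * cs = 1 := funext fun _ => funext fun _ => Prod.ext (cc_sq _) (mul_one _)
lemma zs_comm (g : Lv) : zs * g = g * zs :=
  funext fun _ => funext fun _ => Prod.ext (zz_comm _) (by simp [zs])

lemma zs_free (n : ℕ) (p : Om n) : LV zs n p ≠ p :=
  lev_free _ (fun _ h => zz_ne (congrArg Prod.fst h)) p

lemma conj_z (n : ℕ) (s : Fin (n + 1) → Ps n) (h : s * s = 1) (h' : ∀ j, s j ≠ 1) :
    ∃ a, lev s = a * LV zs n * a⁻¹ :=
  conj_free 2 _ _ (by rw [sq, ← map_mul, h, map_one])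
    (by rw [sq]; exact congrFun (show LV zs * LV zs = 1 by rw [← map_mul, zs_sq, map_one]) n)
    (lev_free _ h') (zs_free n)

lemma ex_ab (i : Fin 4) (n : ℕ) : ∃ a : Bool → Perm (Om n),
    LV (xs i 1) n = a false * LV zs n * (a false)⁻¹ * (a true * LV zs n * (a true)⁻¹) := by
  obtain ⟨a, ha⟩ := conj_z n (fun _ => (1, DihedralGroup.sr 0)) (by ext <;> simp)
    fun _ h => by simpa [← DihedralGroup.r_zero] using congrArg Prod.snd h
  obtain ⟨b, hb⟩ := conj_z n (fun _ => (1, DihedralGroup.sr 1)) (by ext <;> simp)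
    fun _ h => by simpa [← DihedralGroup.r_zero] using congrArg Prod.snd h
  obtain ⟨u, hu⟩ := conj_free 11 (lev (xs i 1 n))
    (lev fun _ : Fin (n + 1) => ((1, DihedralGroup.r 1) : Ps n))
    (by
      have := congrFun (xs_hz.pow i 11) n
      have h0 := congrFun (xs_hz.pow i 0) n
      rw [← map_pow, ← Pi.pow_apply, this]
      exact (congrArg lev h0.symm).trans (map_one _))
    (by rw [← map_pow, ← map_one lev]; congr 1; ext <;> simp; rfl)
    (lev_free _ fun j h => xx_ne _ (by omega) i (congrArg Prod.fst h))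
    (lev_free _ fun j h => (by decide : DihedralGroup.r (1 : ZMod 11) ≠ 1) (congrArg Prod.snd h))
  refine ⟨fun t => u * (if t then b else a), ?_⟩
  have e : (lev fun _ : Fin (n + 1) => ((1, DihedralGroup.r 1) : Ps n)) =
      a * LV zs n * a⁻¹ * (b * LV zs n * b⁻¹) := by
    rw [← ha, ← hb, ← map_mul]; congr 1; ext <;> simp
  change lev (xs i 1 n) = _
  rw [hu, e]
  simp [mul_assoc]

lemma ex_d (n : ℕ) : ∃ a : Perm (Om n), LV cs n = a * LV zs n * a⁻¹ :=
  conj_z n _ (congrFun cs_sq n) fun _ h => cc_ne _ (congrArg Prod.fst h)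

noncomputable def gen : Gen → G'
  | Sum.inl p => J (xs p.1 p.2)
  | Sum.inr (Sum.inl p) => (((fun n => (ex_ab p.1 n).choose p.2 : PP') : PP' ⧸ Null),
      FreeGroup.of (Sum.inr (Sum.inl p)))
  | Sum.inr (Sum.inr k) => ![(((fun n => tt _ n : PP') : PP' ⧸ Null),
      FreeGroup.of (Sum.inr (Sum.inr k))), J cs, J zs,
      (((fun n => (ex_d n).choose : PP') : PP' ⧸ Null), FreeGroup.of (Sum.inr (Sum.inr k)))] k

lemma conj_J1 (a : PP') (w : FreeGroup Gen) (s : PP') :
    ((a : PP' ⧸ Null), w) * J1 s * ((a : PP' ⧸ Null), w)⁻¹ = J1 (a * s * a⁻¹) :=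
  Prod.ext rfl (by simp [J1])

noncomputable abbrev tG : G' := gen (Sum.inr (Sum.inr 0))

lemma t_J (s : Lv) : tG * J s * tG⁻¹ = J fun n j => s n (j + 1) :=
  (conj_J1 _ _ _).trans (congrArg J1 (funext fun n => tt_lev (s n)))

lemma t_x (i : Fin 4) (a : FF) : tG * J (xs i a) * tG⁻¹ = J (tau xs i a) := by
  rw [t_J]
  refine Prod.ext ((mk_eq' _ _).2 ?_) rfl
  refine squeeze_zero (fun _ => dH_nonneg _ _) (fun n => ?_)
    tendsto_one_div_add_atTop_nhds_zero_nat
  refine dH_lev (fun j => xs i a n (j + 1)) (tau xs i a n) fun j hj => ?_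
  rw [xs_tau, xs, Fin.val_add_one_of_lt (Fin.lt_last_iff_ne_last.2 hj)]

lemma x_rel (i : Fin 4) : J (xs i 1) = gen (Sum.inr (Sum.inl (i, false))) * J zs *
    (gen (Sum.inr (Sum.inl (i, false))))⁻¹ * (gen (Sum.inr (Sum.inl (i, true))) * J zs *
    (gen (Sum.inr (Sum.inl (i, true))))⁻¹) := by
  simp only [gen, J, MonoidHom.comp_apply, conj_J1, ← map_mul]
  exact congrArg J1 (funext fun n => (ex_ab i n).choose_spec)

lemma c_rel : J cs = gen (Sum.inr (Sum.inr 3)) * J zs * (gen (Sum.inr (Sum.inr 3)))⁻¹ :=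
  ((conj_J1 _ _ _).trans (congrArg J1 (funext fun n => (ex_d n).choose_spec.symm))).symm

noncomputable abbrev GG := (FreeGroup.lift gen).range

noncomputable def gg (s : Gen) : GG := ⟨gen s, FreeGroup.of s, FreeGroup.lift_apply_of⟩

instance : Countable GG := (FreeGroup.lift gen).rangeRestrict_surjective.countable

noncomputable abbrev zG : GG := gg (Sum.inr (Sum.inr 2))

variable {ι : ℕ → Type} [∀ n, Fintype (ι n)] [∀ n, DecidableEq (ι n)]

theorem kill_z (φ : ∀ n, GG → Matrix.unitaryGroup (ι n) ℂ)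
    (hφ : ∀ g h, Tendsto (fun n => ‖(φ n (g * h)).val - (φ n g).val * (φ n h).val‖) atTop (𝓝 0)) :
    Tendsto (fun n => ‖(φ n zG).val - 1‖) atTop (𝓝 0) := by
  let K := Subgroup.centralizer {zG}
  have mem : ∀ g : GG, J zs * g.1 = g.1 * J zs → g ∈ K := fun g h =>
    Subgroup.mem_centralizer_singleton_iff.2 (Subtype.ext h.symm)
  have cJ : ∀ s, J zs * J s = J s * J zs := fun s => by rw [← map_mul, zs_comm, map_mul]
  let X : Fin 4 → FF → K := fun i a => ⟨gg (Sum.inl (i, a)), mem _ (cJ _)⟩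
  let t : K := ⟨gg (Sum.inr (Sum.inr 0)), mem _ (mul_inv_eq_iff_eq_mul.1 (t_J zs)).symm⟩
  let c : K := ⟨gg (Sum.inr (Sum.inr 1)), mem _ (cJ _)⟩
  let z : K := ⟨zG, mem _ (cJ _)⟩
  let i : K →* G' := GG.subtype.comp K.subtype
  have hi : Function.Injective i := Subtype.val_injective.comp Subtype.val_injective
  have ht : ∀ j a, t * X j a * t⁻¹ = tau X j a := fun j a => hi (by
    rw [map_tau, map_mul, map_mul, map_inv]
    exact (t_x j a).trans (map_tau J xs j a))
  refine kill (by simp) X (Hz.of_inj i hi (xs_hz.map J)) t c z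
    (fun j a => ht j a ▸ tau_mem X j a) (fun j a => ?_) (hi ?_) (hi ?_)
    (fun g => Subtype.ext (Subgroup.mem_centralizer_singleton_iff.1 g.2).symm) (hi ?_)
    (fun n g => φ n g) fun g h => hφ g h
  · rw [ht]
    refine hi ?_
    rw [map_mul, map_mul, map_inv, map_tau]
    change tau (fun j a => J (xs j a)) j a * J cs * (tau (fun j a => J (xs j a)) j a)⁻¹ = J cs
    rw [← map_tau, ← map_inv, ← map_mul, ← map_mul]
    congr 1
    funext n k
    simp only [Pi.mul_apply, Pi.inv_apply, xs_tau]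
    exact Prod.ext (cc_fix _ j a) (by simp [cs])
  · change J cs * J cs = 1
    rw [← map_mul, cs_sq, map_one]
  · change J zs * J zs = 1
    rw [← map_mul, zs_sq, map_one]
  · change J cs * (J (xs 3 1) * J cs * (J (xs 3 1))⁻¹) =
      J zs * (J (xs 3 1) * J cs * (J (xs 3 1))⁻¹ * J cs)
    simp only [← map_inv, ← map_mul]
    congr 1
    funext n k
    exact Prod.ext (cc_rel _ (by omega)) (by simp [cs, zs, xs])

noncomputable def PhiQ {K : Type} [Group K] (φ : ∀ n, K → Matrix.unitaryGroup (ι n) ℂ)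
    (hφ : ∀ g h, Tendsto (fun n => ‖(φ n (g * h)).val - (φ n g).val * (φ n h).val‖) atTop (𝓝 0)) :
    K →* Q (Mx ι) atTop where
  toFun g := mk _ atTop ⟨fun n => (φ n g).val, 1, fun n => by
    change ‖(φ n g).val‖ ≤ 1
    rw [← mul_one (φ n g).val, CStarRing.norm_coe_unitary_mul]; exact norm_one_le⟩
  map_one' := by
    rw [← map_one (mk _ atTop), mk_eq]
    refine (hφ 1 1).congr fun n => ?_
    change _ = ‖(φ n 1).val - 1‖
    rw [mul_one, norm_sub_rev, ← CStarRing.norm_coe_unitary_mul (φ n 1) (_ - 1), mul_sub, mul_one]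
  map_mul' g h := by rw [← map_mul, mk_eq]; exact hφ g h

theorem stable (φ : ∀ n, GG → Matrix.unitaryGroup (ι n) ℂ)
    (hφ : ∀ g h, Tendsto (fun n => ‖(φ n (g * h)).val - (φ n g).val * (φ n h).val‖) atTop (𝓝 0)) :
    ∃ ψ : ∀ n, GG →* Matrix.unitaryGroup (ι n) ℂ,
      ∀ g, Tendsto (fun n => ‖(φ n g).val - (ψ n g).val‖) atTop (𝓝 0) := by
  let ψ : ∀ n, GG →* Matrix.unitaryGroup (ι n) ℂ := fun n =>
    (FreeGroup.lift fun s => φ n (gg s)).comp ((MonoidHom.snd _ _).comp GG.subtype)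
  have hψ : ∀ g h, Tendsto (fun n => ‖(ψ n (g * h)).val - (ψ n g).val * (ψ n h).val‖) atTop (𝓝 0) :=
    fun g h => by simpa using tendsto_const_nhds
  let Φ := PhiQ φ hφ
  let Ψ := PhiQ (fun n g => ψ n g) hψ
  have e : ∀ g, Φ g = Ψ g ↔ Tendsto (fun n => ‖(φ n g).val - (ψ n g).val‖) atTop (𝓝 0) :=
    fun g => mk_eq
  have z1 : zG ∈ Φ.ker := by
    rw [MonoidHom.mem_ker, ← map_one (mk _ atTop)]
    exact mk_eq.2 (kill_z φ hφ)
  have k1 : ∀ g : GG, g.1.2 = 1 → g ∈ Φ.ker → Φ g = Ψ g := fun g h1 h2 => by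
    have : ∀ n, ψ n g = ψ n 1 := fun n => by simp [ψ, h1]
    rw [MonoidHom.mem_ker.1 h2, ← map_one Ψ]
    exact mk_eq.2 (by simpa [this] using tendsto_const_nhds)
  have k2 : ∀ s, (gen s).2 = FreeGroup.of s → Φ (gg s) = Ψ (gg s) := fun s h => by
    have : ∀ n, ψ n (gg s) = φ n (gg s) := fun n => by simp [ψ, gg, h]
    exact (e _).2 (by simpa [this] using tendsto_const_nhds)
  have cj : ∀ g, g * zG * g⁻¹ ∈ Φ.ker := fun g => Φ.normal_ker.conj_mem _ z1 g
  have hg : ∀ s, Φ (gg s) = Ψ (gg s) := by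
    rintro (⟨i, a⟩ | p | k)
    · refine k1 _ rfl ?_
      have h1 : gg (Sum.inl (i, 1)) ∈ Φ.ker := by
        have : gg (Sum.inl (i, 1)) = gg (Sum.inr (Sum.inl (i, false))) * zG *
          (gg (Sum.inr (Sum.inl (i, false))))⁻¹ * (gg (Sum.inr (Sum.inl (i, true))) * zG *
          (gg (Sum.inr (Sum.inl (i, true))))⁻¹) := Subtype.ext (x_rel i)
        rw [this]; exact mul_mem (cj _) (cj _)
      obtain ⟨m, rfl⟩ := ZMod.natCast_zmod_surjective a
      have : gg (Sum.inl (i, m)) = gg (Sum.inl (i, 1)) ^ m :=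
        Subtype.ext ((xs_hz.map J).pow i m).symm
      rw [this]; exact pow_mem h1 m
    · exact k2 _ rfl
    · fin_cases k
      · exact k2 _ rfl
      · refine k1 _ rfl ?_
        have : gg (Sum.inr (Sum.inr 1)) = gg (Sum.inr (Sum.inr 3)) * zG *
          (gg (Sum.inr (Sum.inr 3)))⁻¹ := Subtype.ext c_rel
        change gg (Sum.inr (Sum.inr 1)) ∈ Φ.ker
        rw [this]; exact cj _
      · exact k1 _ rfl z1
      · exact k2 _ rfl
  refine ⟨ψ, fun g => (e g).1 ?_⟩
  obtain ⟨w, rfl⟩ := (FreeGroup.lift gen).rangeRestrict_surjective g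
  have : Φ.comp (FreeGroup.lift gen).rangeRestrict = Ψ.comp (FreeGroup.lift gen).rangeRestrict :=
    FreeGroup.ext_hom _ _ fun s => by
      have : (FreeGroup.lift gen).rangeRestrict (FreeGroup.of s) = gg s :=
        Subtype.ext FreeGroup.lift_apply_of
      rw [MonoidHom.comp_apply, MonoidHom.comp_apply, this, hg]
  exact DFunLike.congr_fun this w

open Pool.Agent.H.MP_e38963_al in
lemma hs_pu {X : Type} [Fintype X] [DecidableEq X] (σ τ : Perm X) :
    (Matrix.trace (Matrix.conjTranspose ((pu σ).val - (pu τ).val) *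
      ((pu σ).val - (pu τ).val))).re / (Fintype.card X : ℝ) = 2 * dH σ τ := by
  rw [dH, ← mul_div_assoc]
  congr 1
  simp only [Matrix.trace, Matrix.diag, Matrix.mul_apply, Complex.re_sum, Finset.card_filter]
  push_cast
  rw [Finset.mul_sum]
  refine Finset.sum_congr rfl fun x _ => ?_
  have e : ∀ (ρ : Perm X) y, (pu ρ).val y x = if y = ρ x then 1 else 0 := fun ρ y => by
    simp [pu, PEquiv.toMatrix_apply, Equiv.toPEquiv_apply, Equiv.symm_apply_eq]
  simp only [Matrix.conjTranspose_apply, Matrix.sub_apply, e]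
  by_cases h : σ x = τ x
  · simp [h]
  · rw [Finset.sum_eq_add (σ x) (τ x) h]
    · simp [h, Ne.symm h]; norm_num
    · intro y _ hy; simp [hy.1, hy.2]
    · simp
    · simp

lemma dH_congr {X Y : Type} [Fintype X] [DecidableEq X] [Fintype Y] [DecidableEq Y] (e : X ≃ Y)
    (σ τ : Perm X) : dH (e.permCongr σ) (e.permCongr τ) = dH σ τ := by
  unfold dH
  rw [Fintype.card_congr e]
  congr 2
  exact (Finset.card_equiv e fun i => by simp).symm

open Pool.Agent.H.MP_e38963_al in
theorem not_hs : ¬ ∀ (k : ℕ → ℕ) (φ : ∀ n : ℕ, GG → Matrix.unitaryGroup (Fin (k n)) ℂ),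
    (∀ g h : GG, Tendsto (fun n : ℕ =>
      (Matrix.trace (Matrix.conjTranspose ((φ n (g * h)).val - (φ n g).val * (φ n h).val) *
        ((φ n (g * h)).val - (φ n g).val * (φ n h).val))).re / (k n : ℝ)) atTop (𝓝 0)) →
    ∃ ρ : ∀ n : ℕ, GG →* Matrix.unitaryGroup (Fin (k n)) ℂ, ∀ g : GG, Tendsto (fun n : ℕ =>
      (Matrix.trace (Matrix.conjTranspose ((φ n g).val - (ρ n g).val) *
        ((φ n g).val - (ρ n g).val))).re / (k n : ℝ)) atTop (𝓝 0) := by
  intro h
  let e := fun n => Fintype.equivFin (Om n)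
  let s : GG → PP' := fun g => g.1.1.out
  have hs : ∀ g, (s g : PP' ⧸ Null) = g.1.1 := fun g => QuotientGroup.out_eq' _
  have key : ∀ n (σ τ : Perm (Om n)), (Matrix.trace (Matrix.conjTranspose
      ((pu ((e n).permCongr σ)).val - (pu ((e n).permCongr τ)).val) *
      ((pu ((e n).permCongr σ)).val - (pu ((e n).permCongr τ)).val))).re /
        (Fintype.card (Om n) : ℝ) = 2 * dH σ τ := fun n σ τ => by
    rw [← dH_congr (e n), ← hs_pu, Fintype.card_fin]
  obtain ⟨ρ, hρ⟩ := h (fun n => Fintype.card (Om n)) (fun n g => pu ((e n).permCongr (s g n)))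
    fun g h => by
      have h1 := ((mk_eq' (s (g * h)) (s g * s h)).1
        (by rw [QuotientGroup.mk_mul, hs, hs, hs]; rfl)).const_mul 2
      rw [mul_zero] at h1
      refine h1.congr fun n => ?_
      have : (e n).permCongr ((s g * s h) n) = (e n).permCongr (s g n) * (e n).permCongr (s h n) := by
        ext; simp
      rw [← key, ← Submonoid.coe_mul, ← map_mul, this]
  have h1 : ∀ n, ρ n zG = pu ((e n).permCongr 1) := fun n => by
    have := kill_z (ι := fun _ => Fin (Fintype.card (Om n))) (fun _ g => ρ n g)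
      fun g h => by simpa using tendsto_const_nhds
    have h2 := tendsto_nhds_unique tendsto_const_nhds this
    rw [norm_eq_zero, sub_eq_zero] at h2
    rw [show (e n).permCongr 1 = 1 by ext; simp, map_one]
    exact Subtype.ext h2
  have h2 := hρ zG
  simp only [h1, key] at h2
  have h3 := ((mk_eq' (s zG) (LV zs)).1 (hs _)).const_mul 2
  obtain ⟨n, h4, h5⟩ := ((h2.eventually_lt_const one_pos).and
    (h3.eventually_lt_const (by norm_num : (2 : ℝ) * 0 < 1))).exists
  have h6 : dH (LV zs n) 1 = 1 := by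
    unfold dH
    rw [Finset.filter_true_of_mem, Finset.card_univ, div_self]
    · exact_mod_cast Fintype.card_ne_zero
    · exact fun x _ => zs_free n x
  have h7 := dH_tri (LV zs n) (s zG n) 1
  rw [dH_comm] at h5
  linarith

end Pool.Agent.H.MP_a51306_an
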